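import Pool.Agent.Lib.H30F.SD
import Pool.Agent.Lib.H98M.M0

/-!
# H96TF, file X: the uncoverable disconnected sets form an acyclic poset

`Pi` is a down-closed family of sets of vertices which contains all the singletons and has the
exchange property (E) of helper8: if `A + b` and `A + d` are in `Pi`, and `U` is a connected set which
contains `b` and `d` and no other `u` with `A + u` in `Pi`, then `A + b + d` is in `Pi`.
-/

set_option autoImplicit false
set_option linter.unusedSectionVars false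

namespace H96TF

open Finset H98P H98Z H98M H63F H30F

section poset

variable {α : Type*} [PartialOrder α] [Fintype α] [DecidableEq α]

/-- FIBRES (Quillen): `P` is a part of `Q`, all the parts of `P` below an element of `Q` are
acyclic, `Q` is acyclic. -/
theorem ac_fib {P Q : α → Prop} (hPQ : ∀ x, P x → Q x)
    (hf : ∀ y, Q y → AC (Ch fun x => P x ∧ x ≤ y)) (hQ : AC (Ch Q)) : AC (Ch P) := by
  have hac : ∀ s, Ch Q s → s.Nonempty → AC (fun r => ∃ M ∈ s, Ch (fun x => P x ∧ x ≤ M) r) := by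
    intro s hs hn
    obtain ⟨M, hM, h⟩ := ch_max hs hn
    refine ac_congr (K := Ch fun x => P x ∧ x ≤ M) (fun r => ?_) (hf M (hs.1 M hM))
    exact ⟨fun h1 => ⟨M, hM, h1⟩,
      fun ⟨M', hM', h1⟩ => ch_mono (fun x hx => ⟨hx.1, hx.2.trans (h M' hM')⟩) h1⟩
  refine ac_transfer (Ch P) (Ch Q) ch_dn ch_dn (ch_empty P) (ch_empty Q)
    (fun s T => T ⊆ s) (fun t r => ∃ M ∈ t, Ch (fun x => P x ∧ x ≤ M) r)
    (fun s r => ∃ M ∈ s, Ch (fun x => P x ∧ x ≤ M) r)
    ?_ ?_ ?_ ?_ ?_ ?_ ?_ ?_ ?_ ?_ ?_ ?_ ?_ hQ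
  · exact fun s t hst _ _ r hr => hr.trans hst
  · exact fun s _ _ => empty_subset _
  · exact fun s _ hn => ac_simplex hn
  · exact fun s hs _ r hr => ch_mono hPQ (ch_dn _ _ hr hs)
  · rintro s t hst _ _ r ⟨M, hM, h⟩
    exact ⟨M, hst hM, h⟩
  · rintro s _ ⟨M, hM⟩
    exact ⟨M, hM, ch_empty _⟩
  · exact hac
  · rintro s _ _ r ⟨M, _, h⟩
    exact ch_mono (fun x hx => hx.1) h
  · rintro s t hst _ _ r ⟨M, hM, h⟩
    exact ⟨M, hst hM, h⟩
  · intro s hs hn
    obtain ⟨M, hM, h⟩ := ch_max hs hn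
    exact ⟨M, hM, fun x hx => ⟨hs.1 x hx, h x hx⟩, hs.2⟩
  · exact fun s hs hn => hac s (ch_mono hPQ hs) hn
  · rintro s _ _ r ⟨M, _, h⟩
    exact ch_mono (fun x hx => hx.1) h
  · rintro s t r _ _ h1 _ ⟨M, hM, h⟩
    exact ⟨M, h1 hM, h⟩

/-- Adding an element which is below no element of `R`. -/
theorem ac_add {R : α → Prop} {a : α} (hR : AC (Ch R)) (hno : ∀ x, R x → ¬ a ≤ x)
    (hl : AC (Ch fun x => R x ∧ x ≤ a)) : AC (Ch fun x => R x ∨ x = a) := by
  have h2 : AC (Ch fun x => (R x ∧ x ≤ a) ∨ x = a) :=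
    ac_ch_cone (a := a) (Or.inr rfl) fun x hx => Or.inr (hx.elim (fun h => h.2) fun h => h.le)
  have h12 : AC (fun s => Ch R s ∧ Ch (fun x => (R x ∧ x ≤ a) ∨ x = a) s) := by
    refine ac_congr (K := Ch fun x => R x ∧ x ≤ a) (fun s => ?_) hl
    constructor
    · exact fun h => ⟨ch_mono (fun x hx => hx.1) h, ch_mono (fun x hx => Or.inl hx) h⟩
    · rintro ⟨h3, h4⟩
      refine ⟨fun x hx => ?_, h3.2⟩
      rcases h4.1 x hx with h5 | h5
      · exact h5
      · exact absurd h5.symm.le (hno x (h3.1 x hx))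
  refine ac_congr (fun s => ?_) (ac_union ch_dn ch_dn hR h2 h12)
  constructor
  · rintro (h | h)
    · exact ch_mono (fun x hx => Or.inl hx) h
    · exact ch_mono (fun x hx => hx.elim (fun h5 => Or.inl h5.1) Or.inr) h
  · intro h
    by_cases ha : a ∈ s
    · right
      refine ⟨fun x hx => ?_, h.2⟩
      rcases h.1 x hx with h3 | h3
      · left
        refine ⟨h3, ?_⟩
        rcases h.2 x hx a ha with h4 | h4
        · exact h4
        · exact absurd h4 (hno x h3)
      · exact Or.inr h3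
    · left
      refine ⟨fun x hx => ?_, h.2⟩
      rcases h.1 x hx with h3 | h3
      · exact h3
      · exact absurd (h3 ▸ hx) ha

end poset

variable {V : Type*} [Fintype V] [DecidableEq V]

private theorem nd_single (G : Finset (Sym2 V)) (s : V) : ¬ Disc {s} G := by
  rintro ⟨C, D, ⟨c, hc⟩, ⟨d, hd⟩, hCD, hU, -⟩
  have h1 : c = s := mem_singleton.1 (hU ▸ mem_union_left D hc)
  have h2 : d = s := mem_singleton.1 (hU ▸ mem_union_right C hd)
  exact disjoint_left.1 hCD hc (by rw [h1, ← h2]; exact hd)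

private theorem nd_insert {G : Finset (Sym2 V)} {U : Finset V} {x y : V} (hU : ¬ Disc U G)
    (hx : x ∈ U) (hxy : s(x, y) ∈ G) : ¬ Disc (insert y U) G := by
  rintro ⟨C, D, hC, hD, hCD, hu, h⟩
  by_cases hy : y ∈ U
  · exact hU ⟨C, D, hC, hD, hCD, by rw [hu, insert_eq_of_mem hy], h⟩
  have hxu : x ∈ C ∪ D := hu ▸ mem_insert_of_mem hx
  have hyu : y ∈ C ∪ D := hu ▸ mem_insert_self y U
  by_cases h1 : (C ∩ U).Nonempty ∧ (D ∩ U).Nonempty
  · refine hU ⟨C ∩ U, D ∩ U, h1.1, h1.2, ?_, ?_, ?_⟩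
    · exact disjoint_of_subset_left inter_subset_left
        (disjoint_of_subset_right inter_subset_left hCD)
    · rw [← union_inter_distrib_right, hu]
      exact inter_eq_right.2 (subset_insert y U)
    · exact fun a ha b hb => h a (mem_inter.1 ha).1 b (mem_inter.1 hb).1
  · rw [not_and_or, not_nonempty_iff_eq_empty, not_nonempty_iff_eq_empty] at h1
    rcases h1 with h1 | h1
    · -- `C = {y}`
      have hxC : x ∉ C := fun hc => notMem_empty x (h1 ▸ mem_inter.2 ⟨hc, hx⟩)
      have hxD : x ∈ D := (mem_union.1 hxu).resolve_left hxC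
      obtain ⟨c, hc⟩ := hC
      have hcu : c ∈ insert y U := hu ▸ mem_union_left D hc
      rcases mem_insert.1 hcu with h3 | h3
      · rw [h3] at hc
        have := h y hc x hxD
        rw [Sym2.eq_swap] at this
        exact this hxy
      · exact notMem_empty c (h1 ▸ mem_inter.2 ⟨hc, h3⟩)
    · have hxD : x ∉ D := fun hc => notMem_empty x (h1 ▸ mem_inter.2 ⟨hc, hx⟩)
      have hxC : x ∈ C := (mem_union.1 hxu).resolve_right hxD
      obtain ⟨d, hd⟩ := hD
      have hdu : d ∈ insert y U := hu ▸ mem_union_right C hd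
      rcases mem_insert.1 hdu with h3 | h3
      · rw [h3] at hd
        exact h x hxC y hd hxy
      · exact notMem_empty d (h1 ▸ mem_inter.2 ⟨hd, h3⟩)

/-- A connected set with at least two vertices has a non-cut vertex other than `s`. -/
theorem noncut {G : Finset (Sym2 V)} {W : Finset V} {s : V} (hW : ¬ Disc W G) (hs : s ∈ W)
    (h2 : ∃ t ∈ W, t ≠ s) : ∃ b ∈ W, b ≠ s ∧ ¬ Disc (W.erase b) G := by
  classical
  obtain ⟨t, ht, hts⟩ := h2
  have hne : (W.powerset.filter fun U => s ∈ U ∧ U ≠ W ∧ ¬ Disc U G).Nonempty := by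
    refine ⟨{s}, ?_⟩
    rw [mem_filter, mem_powerset]
    refine ⟨singleton_subset_iff.2 hs, mem_singleton_self s, ?_, nd_single G s⟩
    intro h
    exact hts (mem_singleton.1 (h ▸ ht))
  obtain ⟨U, hU, hmax⟩ := exists_max_image _ (fun U : Finset V => U.card) hne
  rw [mem_filter, mem_powerset] at hU
  obtain ⟨hUW, hsU, hUne, hUd⟩ := hU
  have hex : ∃ x ∈ U, ∃ y ∈ W \ U, s(x, y) ∈ G := by
    by_contra hcon
    push Not at hcon
    refine hW ⟨U, W \ U, ⟨s, hsU⟩, ?_, disjoint_sdiff, union_sdiff_of_subset hUW, hcon⟩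
    rw [sdiff_nonempty]
    exact fun h => hUne (subset_antisymm hUW h)
  obtain ⟨x, hx, y, hy, hxy⟩ := hex
  rw [mem_sdiff] at hy
  have h1 : insert y U = W := by
    by_contra hcon
    have h3 := hmax (insert y U) (by
      rw [mem_filter, mem_powerset]
      exact ⟨insert_subset hy.1 hUW, mem_insert_of_mem hsU, hcon, nd_insert hUd hx hxy⟩)
    rw [card_insert_of_notMem hy.2] at h3
    omega
  refine ⟨y, hy.1, fun h => hy.2 (h ▸ hsU), ?_⟩
  rw [← h1, erase_insert hy.2]
  exact hUd

/-- The nearest vertex with `p`. -/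
theorem near {G : Finset (Sym2 V)} {W : Finset V} {b : V} (p : V → Prop) (hW : ¬ Disc W G)
    (hb : b ∈ W) (h : ∃ c ∈ W, c ≠ b ∧ p c) :
    ∃ c ∈ W, c ≠ b ∧ p c ∧ ∃ U : Finset V, b ∈ U ∧ c ∈ U ∧ ¬ Disc U G ∧
      ∀ u ∈ U, u ≠ b → u ≠ c → ¬ p u := by
  classical
  have hne : (W.powerset.filter fun U => b ∈ U ∧ ¬ Disc U G ∧ ∃ c ∈ U, c ≠ b ∧ p c).Nonempty :=
    ⟨W, by rw [mem_filter, mem_powerset]; exact ⟨subset_rfl, hb, hW, h⟩⟩
  obtain ⟨U, hU, hmin⟩ := exists_min_image _ (fun U : Finset V => U.card) hne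
  rw [mem_filter, mem_powerset] at hU
  obtain ⟨hUW, hbU, hUd, c, hc, hcb, hpc⟩ := hU
  obtain ⟨x, hx, hxb, hxd⟩ := noncut hUd hbU ⟨c, hc, hcb⟩
  have hno : ∀ u ∈ U.erase x, u ≠ b → ¬ p u := by
    intro u hu hub hpu
    have h3 := hmin (U.erase x) (by
      rw [mem_filter, mem_powerset]
      exact ⟨(erase_subset _ _).trans hUW, mem_erase.2 ⟨hxb.symm, hbU⟩, hxd, u, hu, hub, hpu⟩)
    have h4 := card_erase_add_one hx
    omega
  have hcx : c = x := by
    by_contra hcon
    exact hno c (mem_erase.2 ⟨hcon, hc⟩) hcb hpc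
  subst hcx
  exact ⟨c, hUW hc, hcb, hpc, U, hbU, hc, hUd,
    fun u hu hub huc => hno u (mem_erase.2 ⟨huc, hu⟩) hub⟩

/-- DUAL TREE LEMMA: the proper subsets `W'` of a connected set `W` with `W' ∪ C` not in `Pi`. -/
theorem ac_nf {G : Finset (Sym2 V)} {Pi : Finset V → Prop}
    (dn : ∀ A B, A ⊆ B → Pi B → Pi A)
    (E : ∀ (A : Finset V) (b d : V) (U : Finset V), Pi (insert b A) → Pi (insert d A) → b ∈ U →
      d ∈ U → ¬ Disc U G → (∀ u ∈ U, u ≠ b → u ≠ d → ¬ Pi (insert u A)) →
      Pi (insert b (insert d A))) :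
    ∀ (k : ℕ) (W C : Finset V), W.card = k → ¬ Disc W G → (∃ w ∈ W, Pi (insert w C)) →
      ¬ Pi (W ∪ C) → AC (Ch fun W' : Finset V => W' ⊆ W ∧ W' ≠ W ∧ ¬ Pi (W' ∪ C)) := by
  classical
  intro k
  induction k with
  | zero =>
    rintro W C hk _ ⟨w, hw, _⟩ _
    rw [card_eq_zero] at hk
    rw [hk] at hw
    exact absurd hw (notMem_empty w)
  | succ k ih =>
    rintro W C hk hW ⟨s, hs, hps⟩ hWC
    have h2 : ∃ t ∈ W, t ≠ s := by
      by_contra hcon
      push Not at hcon
      have : W = {s} := eq_singleton_iff_unique_mem.2 ⟨hs, hcon⟩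
      rw [this, singleton_union] at hWC
      exact hWC hps
    obtain ⟨b, hb, hbs, hbd⟩ := noncut hW hs h2
    have hsW0 : s ∈ W.erase b := mem_erase.2 ⟨hbs.symm, hs⟩
    have hk0 : (W.erase b).card = k := by
      have := card_erase_add_one hb
      omega
    have hun : ∀ X : Finset V, X ∪ insert b C = insert b X ∪ C := fun X => by
      rw [union_insert, insert_union]
    -- the part with `b`
    have hQ1 : AC (Ch fun X : Finset V => X ⊆ W.erase b ∧ X ≠ W.erase b ∧ ¬ Pi (X ∪ insert b C)) := by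
      by_cases hpb : Pi (insert b C)
      · obtain ⟨c, hc, hcb, hpc, U, hbU, hcU, hUd, hUn⟩ :=
          near (fun w => Pi (insert w C)) hW hb ⟨s, hs, hbs.symm, hps⟩
        have h3 := E C b c U hpb hpc hbU hcU hUd hUn
        refine ih (W.erase b) (insert b C) hk0 hbd ⟨c, mem_erase.2 ⟨hcb, hc⟩, ?_⟩ ?_
        · rw [insert_comm]
          exact h3
        · rw [hun, insert_erase hb]
          exact hWC
      · refine ac_ch_cone (a := ∅) ⟨empty_subset _, ?_, ?_⟩ fun X _ => Or.inl (empty_subset X)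
        · intro h
          exact notMem_empty s (h ▸ hsW0)
        · rw [empty_union]
          exact hpb
    -- all but `W - b`
    have hR : AC (Ch fun X : Finset V => (X ⊆ W ∧ X ≠ W ∧ ¬ Pi (X ∪ C)) ∧ X ≠ W.erase b) := by
      refine ac_closure (fun X : Finset V => X.erase b) (fun X : Finset V => insert b X)
        ?_ ?_ ?_ ?_ ?_ hQ1
      · rintro X ⟨⟨h3, h4, h5⟩, h6⟩
        refine ⟨erase_subset_erase b h3, ?_, ?_⟩
        · intro h7
          by_cases hbX : b ∈ X
          · apply h4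
            rw [← insert_erase hbX, h7, insert_erase hb]
          · rw [erase_eq_of_notMem hbX] at h7
            exact h6 h7
        · intro h7
          rw [hun] at h7
          refine h5 (dn _ _ ?_ h7)
          exact union_subset_union_left fun a ha => by
            by_cases hab : a = b
            · rw [hab]
              exact mem_insert_self _ _
            · exact mem_insert_of_mem (mem_erase.2 ⟨hab, ha⟩)
      · rintro X ⟨h3, h4, h5⟩
        have hbX : b ∉ X := fun h => (mem_erase.1 (h3 h)).1 rfl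
        refine ⟨⟨?_, ?_, ?_⟩, ?_⟩
        · exact insert_subset hb (h3.trans (erase_subset _ _))
        · intro h6
          apply h4
          rw [← h6, erase_insert hbX]
        · rw [← hun]
          exact h5
        · intro h6
          have : b ∈ W.erase b := h6 ▸ mem_insert_self b X
          exact (mem_erase.1 this).1 rfl
      · exact fun X Y _ _ h => erase_subset_erase b h
      · exact fun X Y _ _ h => insert_subset_insert b h
      · intro X _
        exact (subset_insert_iff).2 subset_rfl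
    by_cases h0 : Pi (W.erase b ∪ C)
    · refine ac_congr (fun t => ?_) hR
      constructor
      · exact ch_mono fun X hX => hX.1
      · exact ch_mono fun X hX => ⟨hX, fun h => hX.2.2 (h ▸ h0)⟩
    · have h3 := ac_add (a := W.erase b) hR ?_ ?_
      · refine ac_congr (fun t => ?_) h3
        constructor
        · refine ch_mono fun X hX => ?_
          rcases hX with hX | hX
          · exact hX.1
          · rw [hX]
            refine ⟨erase_subset _ _, ?_, h0⟩
            intro h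
            have : b ∈ W.erase b := h.symm ▸ hb
            exact (mem_erase.1 this).1 rfl
        · refine ch_mono fun X hX => ?_
          by_cases h : X = W.erase b
          · exact Or.inr h
          · exact Or.inl ⟨hX, h⟩
      · rintro X ⟨⟨h4, h5, _⟩, h6⟩ h7
        by_cases hbX : b ∈ X
        · apply h5
          refine subset_antisymm h4 ?_
          rw [← insert_erase hb]
          exact insert_subset hbX h7
        · apply h6
          refine subset_antisymm (fun a ha => mem_erase.2 ⟨?_, h4 ha⟩) h7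
          rintro rfl
          exact hbX ha
      · refine ac_congr (fun t => ?_) (ih (W.erase b) C hk0 hbd ⟨s, hsW0, hps⟩ h0)
        constructor
        · refine ch_mono fun X hX => ⟨⟨⟨hX.1.trans (erase_subset _ _), ?_, hX.2.2⟩, hX.2.1⟩, hX.1⟩
          intro h
          have : b ∈ W.erase b := hX.1 (h.symm ▸ hb)
          exact (mem_erase.1 this).1 rfl
        · exact ch_mono fun X hX => ⟨hX.2, hX.1.2, hX.1.1.2.2⟩

/-- All sets below a set which is not in `Pi`. -/
theorem ac_below {G : Finset (Sym2 V)} {Pi : Finset V → Prop}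
    (dn : ∀ A B, A ⊆ B → Pi B → Pi A) (h0 : Pi ∅) (h1 : ∀ v, Pi {v})
    (E : ∀ (A : Finset V) (b d : V) (U : Finset V), Pi (insert b A) → Pi (insert d A) → b ∈ U →
      d ∈ U → ¬ Disc U G → (∀ u ∈ U, u ≠ b → u ≠ d → ¬ Pi (insert u A)) →
      Pi (insert b (insert d A))) :
    ∀ (k : ℕ) (M : Finset V), M.card ≤ k → ¬ Pi M →
      AC (Ch fun W : Finset V => (¬ Pi W ∧ Disc W G) ∧ W ≤ M) := by
  intro k
  induction k with
  | zero =>
    intro M hk hM
    have : M = ∅ := card_eq_zero.1 (by omega)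
    rw [this] at hM
    exact absurd h0 hM
  | succ k ih =>
    intro M hk hM
    by_cases hd : Disc M G
    · exact ac_ch_cone (a := M) ⟨⟨hM, hd⟩, le_rfl⟩ fun x hx => Or.inr hx.2
    · have hne : M.Nonempty := by
        rw [nonempty_iff_ne_empty]
        intro h
        exact hM (h ▸ h0)
      obtain ⟨w, hw⟩ := hne
      have h2 := ac_nf dn E M.card M ∅ rfl hd ⟨w, hw, h1 w⟩ (by rwa [union_empty])
      refine ac_fib (Q := fun W' : Finset V => W' ⊆ M ∧ W' ≠ M ∧ ¬ Pi (W' ∪ ∅)) ?_ ?_ h2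
      · rintro W ⟨⟨h3, h4⟩, h5⟩
        refine ⟨h5, ?_, by rwa [union_empty]⟩
        intro h
        exact hd (h ▸ h4)
      · rintro W ⟨h3, h4, h5⟩
        rw [union_empty] at h5
        have h6 : W.card < M.card := card_lt_card (h3.ssubset_of_ne h4)
        refine ac_congr (fun t => ?_) (ih W (by omega) h5)
        constructor
        · exact ch_mono fun X hX => ⟨⟨hX.1, hX.2.trans h3⟩, hX.2⟩
        · exact ch_mono fun X hX => ⟨hX.1.1, hX.2⟩

/-- THE FAMILY OF helper8 IS ACYCLIC. -/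
theorem ac_X (G : Finset (Sym2 V)) (Pi : Finset V → Prop)
    (dn : ∀ A B, A ⊆ B → Pi B → Pi A) (h0 : Pi ∅) (h1 : ∀ v, Pi {v})
    (E : ∀ (A : Finset V) (b d : V) (U : Finset V), Pi (insert b A) → Pi (insert d A) → b ∈ U →
      d ∈ U → ¬ Disc U G → (∀ u ∈ U, u ≠ b → u ≠ d → ¬ Pi (insert u A)) →
      Pi (insert b (insert d A)))
    (hV : ¬ Pi univ) : AC (Ch fun W : Finset V => ¬ Pi W ∧ Disc W G) := by
  refine ac_congr (fun t => ?_) (ac_below dn h0 h1 E (univ : Finset V).card univ le_rfl hV)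
  constructor
  · exact ch_mono fun X hX => hX.1
  · exact ch_mono fun X hX => ⟨hX, subset_univ X⟩

end H96TF
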