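import Pool.Agent.Lib.H96TF.E5c
import Pool.Agent.Lib.H8F.Abs

/-!
# H96TF, file Abs5: the plane 2-factor without cycles of length 3 and 4, abstract form

The only graphs which need care are `K_(2,m)` and `K_(2,m)` plus the edge of the two big vertices:
they are 2-connected, but have no cycle of length at least `5`.
-/

set_option autoImplicit false
set_option linter.unusedSectionVars false

namespace H96TF

open Finset H98P H98Z H98M H63F H30F H85TF H8F

variable {V : Type*} [DecidableEq V]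

theorem cov5_sub {E : Finset (Sym2 V)} {A B : Finset V} (h : A ⊆ B) (hB : Cov5 E B) : Cov5 E A := by
  obtain ⟨F, h1, h2, h3, h4⟩ := hB
  exact ⟨F, h1, h2, h3, fun v hv => h4 v (h hv)⟩

theorem cov5_edges {E E' : Finset (Sym2 V)} {A : Finset V} (h : E ⊆ E') (hA : Cov5 E A) :
    Cov5 E' A := by
  obtain ⟨F, h1, h2, h3, h4⟩ := hA
  exact ⟨F, h1.trans h, h2, h3, h4⟩

theorem cov5_empty (E : Finset (Sym2 V)) : Cov5 E ∅ :=
  ⟨∅, empty_subset _, ⟨fun x y z h => absurd h (notMem_empty _),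
    fun x y z w _ _ h => absurd h (notMem_empty _)⟩, fun v => Or.inl (by simp [dg]),
    fun v hv => absurd hv (notMem_empty v)⟩

theorem exch5_set {E : Finset (Sym2 V)} {A U : Finset V} {b d : V}
    (hb : Cov5 E (insert b A)) (hd : Cov5 E (insert d A)) (hbU : b ∈ U) (hdU : d ∈ U)
    (hU : ¬ Disc U E) (hin : ∀ u ∈ U, u ≠ b → u ≠ d → ¬ Cov5 E (insert u A)) :
    Cov5 E (insert b (insert d A)) := by
  obtain ⟨p, hp, hpU⟩ := path_of_not_disc hU hbU hdU
  exact exch5 hb hd p hp fun r hr => hin r (hpU r hr)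

/-- Every edge of `G` meets `{c₁, c₂}`. -/
def Ind2 (G : Finset (Sym2 V)) (c₁ c₂ : V) : Prop :=
  ∀ x y, s(x, y) ∈ G → x = c₁ ∨ x = c₂ ∨ y = c₁ ∨ y = c₂

/-- A cycle of length `5`. -/
theorem cyc5 {E : Finset (Sym2 V)} {p q r s t : V} (h1 : s(p, q) ∈ E) (h2 : s(q, r) ∈ E)
    (h3 : s(r, s) ∈ E) (h4 : s(s, t) ∈ E) (h5 : s(t, p) ∈ E) (pq : p ≠ q) (pr : p ≠ r)
    (ps : p ≠ s) (pt : p ≠ t) (qr : q ≠ r) (qs : q ≠ s) (qt : q ≠ t) (rs : r ≠ s) (rt : r ≠ t)
    (st : s ≠ t) : Cov5 E {p, s} := by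
  have f0 : SF (∅ : Finset (Sym2 V)) := ⟨fun x y z h => absurd h (notMem_empty _),
    fun x y z w _ _ h => absurd h (notMem_empty _)⟩
  have d0 : ∀ v, dg (∅ : Finset (Sym2 V)) v = 0 := fun v => by simp [dg]
  have n1 : s(p, q) ∉ (∅ : Finset (Sym2 V)) := notMem_empty _
  have k1 := dg_insert n1
  have f1 : SF (insert s(p, q) (∅ : Finset (Sym2 V))) := f0.ins0 pq fun z => notMem_empty _
  have n2 : s(q, r) ∉ insert s(p, q) (∅ : Finset (Sym2 V)) := by
    intro h
    rcases mem_insert.1 h with h | h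
    · exact sne (Or.inl (Ne.symm pq)) (Or.inr (Ne.symm pr)) h
    · exact notMem_empty _ h
  have k2 := dg_insert n2
  have e2 : dg (insert s(p, q) (∅ : Finset (Sym2 V))) r = 0 := by
    rw [k1 r, d0, if_neg (by push Not; exact ⟨Ne.symm pr, Ne.symm qr⟩)]
  have f2 := f1.ins0 qr (dg_zero e2)
  have e3 : dg (insert s(q, r) (insert s(p, q) (∅ : Finset (Sym2 V)))) s = 0 := by
    rw [k2 s, k1 s, d0, if_neg (by push Not; exact ⟨Ne.symm ps, Ne.symm qs⟩),
      if_neg (by push Not; exact ⟨Ne.symm qs, Ne.symm rs⟩)]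
  have n3 : s(r, s) ∉ insert s(q, r) (insert s(p, q) (∅ : Finset (Sym2 V))) := fun h =>
    dg_zero e3 r (sw h)
  have k3 := dg_insert n3
  have f3 := f2.ins0 rs (dg_zero e3)
  have e4 : dg (insert s(r, s) (insert s(q, r) (insert s(p, q) (∅ : Finset (Sym2 V))))) t = 0 := by
    rw [k3 t, k2 t, k1 t, d0, if_neg (by push Not; exact ⟨Ne.symm pt, Ne.symm qt⟩),
      if_neg (by push Not; exact ⟨Ne.symm qt, Ne.symm rt⟩),
      if_neg (by push Not; exact ⟨Ne.symm rt, Ne.symm st⟩)]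
  have n4 : s(s, t) ∉ insert s(r, s) (insert s(q, r) (insert s(p, q) (∅ : Finset (Sym2 V)))) :=
    fun h => dg_zero e4 s (sw h)
  have k4 := dg_insert n4
  have f4 := f3.ins0 st (dg_zero e4)
  obtain ⟨K, hK⟩ : ∃ K, K = insert s(s, t) (insert s(r, s) (insert s(q, r)
    (insert s(p, q) (∅ : Finset (Sym2 V))))) := ⟨_, rfl⟩
  have mK : ∀ x y, s(x, y) ∈ K → s(x, y) = s(s, t) ∨ s(x, y) = s(r, s) ∨ s(x, y) = s(q, r) ∨
      s(x, y) = s(p, q) := by
    intro x y h
    rw [hK] at h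
    simp only [mem_insert, notMem_empty, or_false] at h
    exact h
  rw [← hK] at k4 f4
  have n5 : s(t, p) ∉ K := by
    intro h
    rcases mK t p h with h | h | h | h
    · exact sne (Or.inl (Ne.symm st)) (Or.inr ps) h
    · exact sne (Or.inl (Ne.symm rt)) (Or.inl (Ne.symm st)) h
    · exact sne (Or.inl (Ne.symm qt)) (Or.inl (Ne.symm rt)) h
    · exact sne (Or.inl (Ne.symm pt)) (Or.inl (Ne.symm qt)) h
  have k5 := dg_insert n5
  have f5 : SF (insert s(t, p) K) := by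
    refine f4.ins1 (w := s) (Ne.symm pt) ?_ ?_ ?_
    · intro z hz
      rcases mK t z hz with h | h | h | h
      · rw [Sym2.eq_iff] at h
        rcases h with h | h
        · exact absurd h.1.symm st
        · exact h.2
      · exact absurd h (sne (Or.inl (Ne.symm rt)) (Or.inl (Ne.symm st)))
      · exact absurd h (sne (Or.inl (Ne.symm qt)) (Or.inl (Ne.symm rt)))
      · exact absurd h (sne (Or.inl (Ne.symm pt)) (Or.inl (Ne.symm qt)))
    · intro h
      rcases mK s p h with h | h | h | h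
      · exact sne (Or.inr pt) (Or.inl st) h
      · exact sne (Or.inl (Ne.symm rs)) (Or.inr pr) h
      · exact sne (Or.inl (Ne.symm qs)) (Or.inl (Ne.symm rs)) h
      · exact sne (Or.inl (Ne.symm ps)) (Or.inl (Ne.symm qs)) h
    · intro z hzt hz
      have hzr : z = r := by
        rcases mK s z hz with h | h | h | h
        · rw [Sym2.eq_iff] at h
          rcases h with h | h
          · exact absurd h.2 hzt
          · exact absurd h.1 st
        · rw [Sym2.eq_iff] at h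
          rcases h with h | h
          · exact absurd h.1.symm rs
          · exact h.2
        · exact absurd h (sne (Or.inl (Ne.symm qs)) (Or.inl (Ne.symm rs)))
        · exact absurd h (sne (Or.inl (Ne.symm ps)) (Or.inl (Ne.symm qs)))
      rw [hzr]
      intro h
      rcases mK r p h with h | h | h | h
      · exact sne (Or.inl rs) (Or.inl rt) h
      · exact sne (Or.inr ps) (Or.inl rs) h
      · exact sne (Or.inl (Ne.symm qr)) (Or.inr pq) h
      · exact sne (Or.inl (Ne.symm pr)) (Or.inl (Ne.symm qr)) h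
  have tot : ∀ v, dg (insert s(t, p) K) v = (if v = p ∨ v = q then 1 else 0) +
      (if v = q ∨ v = r then 1 else 0) + (if v = r ∨ v = s then 1 else 0) +
      (if v = s ∨ v = t then 1 else 0) + (if v = t ∨ v = p then 1 else 0) := by
    intro v
    rw [k5 v, k4 v, k3 v, k2 v, k1 v, d0, zero_add]
  refine ⟨insert s(t, p) K, ?_, f5, ?_, ?_⟩
  · rw [hK]
    exact insert_subset h5 (insert_subset h4 (insert_subset h3 (insert_subset h2
      (insert_subset h1 (empty_subset _)))))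
  · intro v
    rw [tot v]
    by_cases a1 : v = p
    · subst a1
      right
      simp [pq, pr, ps, pt]
    · by_cases a2 : v = q
      · subst a2
        right
        simp [qr, qs, qt, a1]
      · by_cases a3 : v = r
        · subst a3
          right
          simp [rs, rt, a1, a2]
        · by_cases a4 : v = s
          · subst a4
            right
            simp [st, a1, a2, a3]
          · by_cases a5 : v = t
            · subst a5
              right
              simp [a1, a2, a3, a4]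
            · left
              simp [a1, a2, a3, a4, a5]
  · intro v hv
    rw [tot v]
    rcases mem_insert.1 hv with h | h
    · subst h
      simp [pq, pr, ps, pt]
    · rw [mem_singleton] at h
      subst h
      simp [Ne.symm ps, Ne.symm qs, Ne.symm rs, st]

/-- No cycle of length at least `5` if every edge meets `{c₁, c₂}`. -/
theorem not_cov5 {G : Finset (Sym2 V)} {c₁ c₂ : V} (hI : Ind2 G c₁ c₂) (h12 : c₁ ≠ c₂) {m : V}
    (h1 : m ≠ c₁) (h2 : m ≠ c₂) : ¬ Cov5 G {m} := by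
  rintro ⟨F, hF, hS, hdeg, hm⟩
  have key : ∀ x, x ≠ c₁ → x ≠ c₂ → dg F x = 2 → s(x, c₁) ∈ F ∧ s(x, c₂) ∈ F := by
    intro x x1 x2 hx
    obtain ⟨u, hu⟩ := ex_one (F := F) (v := x) (by omega)
    obtain ⟨u', huu, hu'⟩ := ex_other hx hu
    have a1 : u = c₁ ∨ u = c₂ := by
      rcases hI x u (hF hu) with h | h | h | h
      · exact absurd h x1
      · exact absurd h x2
      · exact Or.inl h
      · exact Or.inr h
    have a2 : u' = c₁ ∨ u' = c₂ := by
      rcases hI x u' (hF hu') with h | h | h | h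
      · exact absurd h x1
      · exact absurd h x2
      · exact Or.inl h
      · exact Or.inr h
    rcases a1 with a1 | a1 <;> rcases a2 with a2 | a2
    · exact absurd (a2.trans a1.symm) huu
    · rw [a1] at hu
      rw [a2] at hu'
      exact ⟨hu, hu'⟩
    · rw [a1] at hu
      rw [a2] at hu'
      exact ⟨hu', hu⟩
    · exact absurd (a2.trans a1.symm) huu
  obtain ⟨m1, m2⟩ := key m h1 h2 (hm m (mem_singleton_self m))
  have d1 : dg F c₁ = 2 := by
    have h3 := hdeg c₁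
    have h4 := dg_pos' m1
    omega
  obtain ⟨m', hmm, hm'⟩ := ex_other d1 (sw m1)
  have m'1 : m' ≠ c₁ := fun e => hS.ne hm' e.symm
  have m'2 : m' ≠ c₂ := by
    rintro rfl
    exact hS.1 m c₁ m' m1 hm' (sw m2)
  have d2 : dg F m' = 2 := by
    have h3 := hdeg m'
    have h4 := dg_pos' hm'
    omega
  obtain ⟨_, m4⟩ := key m' m'1 m'2 d2
  exact hS.2 c₁ m c₂ m' h12 (Ne.symm hmm) (sw m1) m2 (sw m4) (sw hm')

variable [Fintype V]

theorem adj_both {G : Finset (Sym2 V)} {c₁ c₂ : V} (hI : Ind2 G c₁ c₂) (h12 : c₁ ≠ c₂)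
    (hcut : ¬ Disc (univ.erase c₂) G) {m : V}
    (h1 : m ≠ c₁) (h2 : m ≠ c₂) : s(m, c₁) ∈ G := by
  by_contra hcon
  refine hcut ⟨{m}, (univ.erase c₂).erase m, singleton_nonempty m, ?_, ?_, ?_, ?_⟩
  · exact ⟨c₁, mem_erase.2 ⟨Ne.symm h1, mem_erase.2 ⟨h12, mem_univ _⟩⟩⟩
  · rw [disjoint_left]
    intro x hx hx'
    rw [mem_singleton] at hx
    exact (mem_erase.1 hx').1 hx
  · ext x
    simp only [mem_union, mem_singleton, mem_erase, mem_univ, and_true, ne_eq]
    constructor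
    · rintro (h | h)
      · rw [h]
        exact h2
      · exact h.2
    · intro h
      by_cases hx : x = m
      · exact Or.inl hx
      · exact Or.inr ⟨hx, h⟩
  · intro x hx y hy hxy
    rw [mem_singleton] at hx
    rw [hx] at hxy
    rw [mem_erase, mem_erase] at hy
    rcases hI m y hxy with h | h | h | h
    · exact h1 h
    · exact h2 h
    · rw [h] at hxy
      exact hcon hxy
    · exact hy.2.1 h

theorem Ind2.symm {G : Finset (Sym2 V)} {c₁ c₂ : V} (hI : Ind2 G c₁ c₂) : Ind2 G c₂ c₁ := by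
  intro x y h
  rcases hI x y h with h | h | h | h
  · exact Or.inr (Or.inl h)
  · exact Or.inl h
  · exact Or.inr (Or.inr (Or.inr h))
  · exact Or.inr (Or.inr (Or.inl h))

/-- The pair `{c₁, c₂}` of the two big vertices. -/
def Ex5 (G : Finset (Sym2 V)) (W : Finset V) : Prop :=
  ∃ c₁ c₂, c₁ ≠ c₂ ∧ W = {c₁, c₂} ∧ Ind2 G c₁ c₂

theorem ex_fifth (h5 : 5 ≤ Fintype.card V) (a b c d : V) : ∃ z, z ≠ a ∧ z ≠ b ∧ z ≠ c ∧ z ≠ d := by
  by_contra hcon
  push Not at hcon
  have h1 : (univ : Finset V) ⊆ {a, b, c, d} := by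
    intro z _
    simp only [mem_insert, mem_singleton]
    by_cases h1 : z = a
    · exact Or.inl h1
    · by_cases h2 : z = b
      · exact Or.inr (Or.inl h2)
      · by_cases h3 : z = c
        · exact Or.inr (Or.inr (Or.inl h3))
        · exact Or.inr (Or.inr (Or.inr (hcon z h1 h2 h3)))
  have h2 := card_le_card h1
  rw [card_univ] at h2
  have h3 : ({a, b, c, d} : Finset V).card ≤ 4 := card_le_four
  omega

/-- The functor is decreasing. -/
theorem mono5 (h5 : 5 ≤ Fintype.card V) {G G' : Finset (Sym2 V)} (h : G ⊆ G')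
    (hG' : ∀ e ∈ G', ¬ e.IsDiag) {W : Finset V}
    (hW : Disc W G' ∧ (¬ NTC G' → ¬ Cov5 G' W ∧ ¬ Ex5 G' W)) :
    Disc W G ∧ (¬ NTC G → ¬ Cov5 G W ∧ ¬ Ex5 G W) := by
  refine ⟨disc_anti' h hW.1, fun hT => ?_⟩
  obtain ⟨h1, h2⟩ := hW.2 fun h' => hT (ntc_anti h h')
  refine ⟨fun h3 => h1 (cov5_edges h h3), ?_⟩
  rintro ⟨c₁, c₂, h12, hWc, hI⟩
  have hI' : ¬ Ind2 G' c₁ c₂ := fun h3 => h2 ⟨c₁, c₂, h12, hWc, h3⟩
  unfold Ind2 at hI'
  push Not at hI'
  obtain ⟨x, y, hxy, x1, x2, y1, y2⟩ := hI'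
  have hxy' : x ≠ y := fun e => hG' s(x, y) hxy (by rw [e]; simp)
  obtain ⟨z, z1, z2, z3, z4⟩ := ex_fifth h5 c₁ c₂ x y
  have hc1 : ∀ m, m ≠ c₁ → m ≠ c₂ → s(m, c₁) ∈ G' := fun m m1 m2 =>
    h (adj_both hI h12 (fun h' => hT (Or.inr ⟨c₂, h'⟩)) m1 m2)
  have hc2 : ∀ m, m ≠ c₁ → m ≠ c₂ → s(m, c₂) ∈ G' := fun m m1 m2 =>
    h (adj_both hI.symm (Ne.symm h12) (fun h' => hT (Or.inr ⟨c₁, h'⟩)) m2 m1)
  refine h1 ?_
  rw [hWc]
  exact cyc5 (sw (hc1 x x1 x2)) hxy (hc2 y y1 y2) (sw (hc2 z z1 z2)) (hc1 z z1 z2)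
    (Ne.symm x1) (Ne.symm y1) h12 (Ne.symm z1) hxy' x2 (Ne.symm z3) y2 (Ne.symm z4) (Ne.symm z2)

/-- `K_(2,m)`. -/
theorem ac_k2m (h5 : 5 ≤ Fintype.card V) {G : Finset (Sym2 V)} (hT : ¬ NTC G) {c₁ c₂ : V}
    (h12 : c₁ ≠ c₂) (hI : Ind2 G c₁ c₂) :
    AC (Ch fun W : Finset V => Disc W G ∧ (¬ NTC G → ¬ Cov5 G W ∧ ¬ Ex5 G W)) := by
  have hc1 : ∀ m, m ≠ c₁ → m ≠ c₂ → s(m, c₁) ∈ G := fun m m1 m2 =>
    adj_both hI h12 (fun h' => hT (Or.inr ⟨c₂, h'⟩)) m1 m2
  have hc2 : ∀ m, m ≠ c₁ → m ≠ c₂ → s(m, c₂) ∈ G := fun m m1 m2 =>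
    adj_both hI.symm (Ne.symm h12) (fun h' => hT (Or.inr ⟨c₁, h'⟩)) m2 m1
  obtain ⟨M, hM⟩ : ∃ M : Finset V, M = (univ.erase c₁).erase c₂ := ⟨_, rfl⟩
  have mM : ∀ x, x ∈ M ↔ x ≠ c₁ ∧ x ≠ c₂ := by
    intro x
    rw [hM, mem_erase, mem_erase]
    exact ⟨fun h => ⟨h.2.1, h.1⟩, fun h => ⟨h.2, h.1, mem_univ _⟩⟩
  have hMc : 3 ≤ M.card := by
    rw [hM, card_erase_of_mem (mem_erase.2 ⟨Ne.symm h12, mem_univ _⟩),
      card_erase_of_mem (mem_univ _), card_univ]
    omega
  obtain ⟨m, hm⟩ : M.Nonempty := card_pos.1 (by omega)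
  -- a part which contains one of the big vertices
  have side : ∀ (C D : Finset V), D.Nonempty → Disjoint C D →
      (∀ x ∈ C, ∀ y ∈ D, s(x, y) ∉ G) → ∀ a b, (a = c₁ ∧ b = c₂ ∨ a = c₂ ∧ b = c₁) → a ∈ C →
      C ∪ D = {c₁, c₂} := by
    intro C D hD hCD hno a b hab ha
    have adj : ∀ z ∈ M, s(a, z) ∈ G ∧ s(b, z) ∈ G := by
      intro z hz
      obtain ⟨z1, z2⟩ := (mM z).1 hz
      rcases hab with ⟨e1, e2⟩ | ⟨e1, e2⟩
      · rw [e1, e2]
        exact ⟨sw (hc1 z z1 z2), sw (hc2 z z1 z2)⟩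
      · rw [e1, e2]
        exact ⟨sw (hc2 z z1 z2), sw (hc1 z z1 z2)⟩
    have cases : ∀ z, z ∉ M → z = a ∨ z = b := by
      intro z hz
      rw [mM, not_and_or, not_not, not_not] at hz
      rcases hab with ⟨e1, e2⟩ | ⟨e1, e2⟩
      · rw [e1, e2]
        exact hz
      · rw [e1, e2]
        exact hz.symm
    have hDb : ∀ z ∈ D, z = b := by
      intro z hz
      have hzM : z ∉ M := fun h => hno a ha z hz (adj z h).1
      refine (cases z hzM).resolve_left fun h => ?_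
      exact disjoint_left.1 hCD ha (h ▸ hz)
    obtain ⟨d, hd⟩ := hD
    have hbD : b ∈ D := hDb d hd ▸ hd
    have hCa : ∀ z ∈ C, z = a := by
      intro z hz
      have hzM : z ∉ M := fun h => hno z hz b hbD (sw (adj z h).2)
      refine (cases z hzM).resolve_right fun h => ?_
      exact disjoint_left.1 hCD hz (h ▸ hbD)
    have e1 : C = {a} := eq_singleton_iff_unique_mem.2 ⟨ha, hCa⟩
    have e2 : D = {b} := eq_singleton_iff_unique_mem.2 ⟨hbD, hDb⟩
    rw [e1, e2]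
    rcases hab with ⟨e3, e4⟩ | ⟨e3, e4⟩
    · rw [e3, e4]
      rfl
    · rw [e3, e4, union_comm]
      rfl
  refine ac_ch_cone (a := M) ⟨?_, fun _ => ⟨?_, ?_⟩⟩ fun W hW => Or.inr ?_
  · refine ⟨{m}, M.erase m, singleton_nonempty m, ?_, ?_, ?_, ?_⟩
    · rw [← card_pos, card_erase_of_mem hm]
      omega
    · rw [disjoint_left]
      intro x hx hx'
      rw [mem_singleton] at hx
      exact (mem_erase.1 hx').1 hx
    · ext x
      simp only [mem_union, mem_singleton, mem_erase]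
      constructor
      · rintro (h | h)
        · rw [h]
          exact hm
        · exact h.2
      · intro h
        by_cases hx : x = m
        · exact Or.inl hx
        · exact Or.inr ⟨hx, h⟩
    · intro x hx y hy hxy
      rw [mem_singleton] at hx
      rw [hx] at hxy
      have h1 := (mM m).1 hm
      have h2 := (mM y).1 (mem_of_mem_erase hy)
      rcases hI m y hxy with h | h | h | h
      · exact h1.1 h
      · exact h1.2 h
      · exact h2.1 h
      · exact h2.2 h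
  · intro h
    exact not_cov5 hI h12 ((mM m).1 hm).1 ((mM m).1 hm).2
      (cov5_sub (singleton_subset_iff.2 hm) h)
  · rintro ⟨d₁, d₂, _, h, _⟩
    rw [h] at hMc
    have : ({d₁, d₂} : Finset V).card ≤ 2 := card_le_two
    omega
  · -- `W ⊆ M`
    obtain ⟨⟨C, D, hC, hD, hCD, hW1, hno⟩, hW2⟩ := hW
    have hEx := (hW2 hT).2
    have bad : ∀ a ∈ W, (a = c₁ ∨ a = c₂) → False := by
      intro a ha hac
      apply hEx
      refine ⟨c₁, c₂, h12, ?_, hI⟩
      rw [← hW1] at ha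
      rcases mem_union.1 ha with h | h
      · rw [← hW1]
        rcases hac with e | e
        · exact side C D hD hCD hno a c₂ (Or.inl ⟨e, rfl⟩) h
        · exact side C D hD hCD hno a c₁ (Or.inr ⟨e, rfl⟩) h
      · rw [← hW1, union_comm]
        have hno' : ∀ x ∈ D, ∀ y ∈ C, s(x, y) ∉ G := fun x hx y hy h' => hno y hy x hx (sw h')
        rcases hac with e | e
        · exact side D C hC hCD.symm hno' a c₂ (Or.inl ⟨e, rfl⟩) h
        · exact side D C hC hCD.symm hno' a c₁ (Or.inr ⟨e, rfl⟩) h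
    intro x hx
    rw [mM]
    exact ⟨fun e => bad x hx (Or.inl e), fun e => bad x hx (Or.inr e)⟩

/-- THE PLANE 2-FACTOR WITH ALL CYCLES OF LENGTH AT LEAST `5`, abstract form, from the
classification `hcl` of the 2-connected graphs with a vertex on no such cycle. -/
theorem plane_two_factor5 {cross : Sym2 V → Sym2 V → Prop} (hsymm : ∀ e f, cross e f → cross f e)
    (hHD : ∀ W, HD cross W) (h5 : 5 ≤ Fintype.card V)
    (hcl : ∀ G : Finset (Sym2 V), (∀ e ∈ G, ¬ e.IsDiag) → ¬ Disc univ G →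
      (∀ z, ¬ Disc (univ.erase z) G) →
      (∀ v, Cov5 G {v}) ∨ ∃ c₁ c₂, c₁ ≠ c₂ ∧ Ind2 G c₁ c₂) :
    ∃ G : Finset (Sym2 V), G ⊆ LW univ ∧ Plane cross G ∧ ¬ NTC G ∧ Cov5 G univ := by
  obtain ⟨x, y, hxy⟩ : ∃ x y : V, x ≠ y := Fintype.exists_pair_of_one_lt_card (by omega)
  have hdiag : ∀ {G : Finset (Sym2 V)}, G ⊆ LW univ → ∀ e ∈ G, ¬ e.IsDiag := by
    intro G hG e he
    have h1 := hG he
    unfold LW at h1
    exact (mem_filter.1 h1).2
  obtain ⟨G, -, hG1, hG2, hG3⟩ := functor hsymm hHD ⟨x, y, hxy⟩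
    (fun G W => Disc W G ∧ (¬ NTC G → ¬ Cov5 G W ∧ ¬ Ex5 G W))
    (fun G G' h hL _ _ W hW => mono5 h5 h (hdiag hL) hW)
    (fun G W _ _ _ hW => hW.1)
  refine ⟨G, hG1, hG2, ?_⟩
  by_cases hT : NTC G
  · exfalso
    refine hG3 (ac_congr (fun c => ?_) (H30D.ac_disc G hT))
    constructor
    · exact ch_mono fun W hW => ⟨hW, fun h => absurd hT h⟩
    · exact ch_mono fun W hW => hW.1
  · refine ⟨hT, ?_⟩
    by_contra hc
    have hT1 : ¬ Disc univ G := fun h => hT (Or.inl h)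
    have hT2 : ∀ z, ¬ Disc (univ.erase z) G := fun z h => hT (Or.inr ⟨z, h⟩)
    rcases hcl G (hdiag hG1) hT1 hT2 with hall | ⟨c₁, c₂, h12, hI⟩
    · have hno : ∀ W, ¬ Ex5 G W := by
        rintro W ⟨c₁, c₂, h12, _, hI⟩
        obtain ⟨z, z1, z2, _, _⟩ := ex_fifth h5 c₁ c₂ c₁ c₂
        exact not_cov5 hI h12 z1 z2 (hall z)
      refine hG3 (ac_congr (fun c => ?_) (H96TF.ac_X G (Cov5 G) (fun A B h => cov5_sub h)
        (cov5_empty G) hall
        (fun A b d U hb hd hbU hdU hU hin => exch5_set hb hd hbU hdU hU hin) hc))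
      constructor
      · exact ch_mono fun W hW => ⟨hW.2, fun _ => ⟨hW.1, hno W⟩⟩
      · exact ch_mono fun W hW => ⟨(hW.2 hT).1, hW.1⟩
    · exact hG3 (ac_k2m h5 hT h12 hI)

end H96TF
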