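import Pool.Agent.Lib.H85TF.P1

/-!
# H96TF, file E5a: edge sets without cycles of length 3 and 4, elementary lemmas
-/

set_option autoImplicit false

namespace H96TF

open Finset H85TF

variable {V : Type*} [DecidableEq V]

/-- `F` has no loops and no cycles of length `3` or `4`. -/
def SF (F : Finset (Sym2 V)) : Prop :=
  (∀ x y z, s(x, y) ∈ F → s(y, z) ∈ F → s(z, x) ∉ F) ∧
  ∀ x y z w, x ≠ z → y ≠ w → s(x, y) ∈ F → s(y, z) ∈ F → s(z, w) ∈ F → s(w, x) ∉ F

theorem SF.mono {F F' : Finset (Sym2 V)} (h : SF F) (hF : F' ⊆ F) : SF F' :=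
  ⟨fun x y z h1 h2 h3 => h.1 x y z (hF h1) (hF h2) (hF h3),
    fun x y z w h1 h2 h3 h4 h5 h6 => h.2 x y z w h1 h2 (hF h3) (hF h4) (hF h5) (hF h6)⟩

theorem SF.ne {F : Finset (Sym2 V)} (h : SF F) {x y : V} (hxy : s(x, y) ∈ F) : x ≠ y := by
  rintro rfl
  exact h.1 x x x hxy hxy hxy

theorem sw {F : Finset (Sym2 V)} {x y : V} (h : s(x, y) ∈ F) : s(y, x) ∈ F := by
  rwa [Sym2.eq_swap]

theorem swn {F : Finset (Sym2 V)} {x y : V} (h : s(x, y) ∉ F) : s(y, x) ∉ F := fun h' => h (sw h')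

theorem SF.ins {F : Finset (Sym2 V)} {a x : V} (h : SF F) (hax : a ≠ x)
    (h1 : ∀ z, s(a, z) ∈ F → s(x, z) ∉ F)
    (h2 : ∀ z z', s(a, z) ∈ F → s(z, z') ∈ F → z' ≠ a → s(z', x) ∉ F) :
    SF (insert s(a, x) F) := by
  have loop : ∀ p, s(p, p) ∉ insert s(a, x) F := by
    intro p hp
    rcases mem_insert.1 hp with hp | hp
    · rw [Sym2.eq_iff] at hp
      rcases hp with hp | hp
      · exact hax (hp.1.symm.trans hp.2)
      · exact hax (hp.2.symm.trans hp.1)
    · exact h.ne hp rfl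
  have tri : ∀ p q r, s(p, q) = s(a, x) → s(q, r) ∈ insert s(a, x) F →
      s(r, p) ∉ insert s(a, x) F := by
    intro p q r he hq hr
    rcases mem_insert.1 hq with hq' | hq'
    · have : s(p, q) = s(q, r) := he.trans hq'.symm
      rw [Sym2.eq_iff] at this
      rcases this with h3 | h3
      · rw [← h3.2, h3.1] at hr
        exact loop _ hr
      · rw [h3.1] at hr
        exact loop _ hr
    · rcases mem_insert.1 hr with hr' | hr'
      · have : s(p, q) = s(r, p) := he.trans hr'.symm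
        rw [Sym2.eq_iff] at this
        rcases this with h3 | h3
        · rw [h3.2.trans h3.1] at hq
          exact loop _ hq
        · rw [h3.2] at hq
          exact loop _ hq
      · rw [Sym2.eq_iff] at he
        rcases he with ⟨rfl, rfl⟩ | ⟨rfl, rfl⟩
        · exact h1 r (sw hr') hq'
        · exact h1 r hq' (sw hr')
  have four : ∀ p q r w, p ≠ r → q ≠ w → s(p, q) = s(a, x) → s(q, r) ∈ insert s(a, x) F →
      s(r, w) ∈ insert s(a, x) F → s(w, p) ∉ insert s(a, x) F := by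
    intro p q r w hpr hqw he hq hr hw
    have hq' : s(q, r) ∈ F := by
      rcases mem_insert.1 hq with hq' | hq'
      · have : s(p, q) = s(q, r) := he.trans hq'.symm
        rw [Sym2.eq_iff] at this
        rcases this with h3 | h3
        · exact absurd (h3.1.trans h3.2) hpr
        · exact absurd h3.1 hpr
      · exact hq'
    have hw' : s(w, p) ∈ F := by
      rcases mem_insert.1 hw with hq' | hq'
      · have : s(p, q) = s(w, p) := he.trans hq'.symm
        rw [Sym2.eq_iff] at this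
        rcases this with h3 | h3
        · exact absurd (h3.2.trans h3.1) hqw
        · exact absurd h3.2 hqw
      · exact hq'
    have hr' : s(r, w) ∈ F := by
      rcases mem_insert.1 hr with hq' | hq'
      · have : s(p, q) = s(r, w) := he.trans hq'.symm
        rw [Sym2.eq_iff] at this
        rcases this with h3 | h3
        · exact absurd h3.1 hpr
        · rw [← h3.1] at hw
          exact absurd hw (loop _)
      · exact hq'
    rw [Sym2.eq_iff] at he
    rcases he with ⟨rfl, rfl⟩ | ⟨rfl, rfl⟩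
    · exact h2 w r (sw hw') (sw hr') (Ne.symm hpr) (sw hq')
    · exact h2 r w hq' hr' (Ne.symm hqw) hw'
  constructor
  · intro p q r hp hq hr
    rcases mem_insert.1 hp with hp' | hp'
    · exact tri p q r hp' hq hr
    · rcases mem_insert.1 hq with hq' | hq'
      · exact tri q r p hq' hr hp
      · rcases mem_insert.1 hr with hr' | hr'
        · exact tri r p q hr' hp hq
        · exact h.1 p q r hp' hq' hr'
  · intro p q r w hpr hqw hp hq hr hw
    rcases mem_insert.1 hp with hp' | hp'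
    · exact four p q r w hpr hqw hp' hq hr hw
    · rcases mem_insert.1 hq with hq' | hq'
      · exact four q r w p hqw (Ne.symm hpr) hq' hr hw hp
      · rcases mem_insert.1 hr with hr' | hr'
        · exact four r w p q (Ne.symm hpr) (Ne.symm hqw) hr' hw hp hq
        · rcases mem_insert.1 hw with hw' | hw'
          · exact four w p q r (Ne.symm hqw) hpr hw' hp hq hr
          · exact h.2 p q r w hpr hqw hp' hq' hr' hw'

/-- Adding an edge at a vertex of degree `0`. -/
theorem SF.ins0 {F : Finset (Sym2 V)} {a x : V} (h : SF F) (hax : a ≠ x)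
    (h0 : ∀ z, s(x, z) ∉ F) : SF (insert s(a, x) F) :=
  h.ins hax (fun z _ => h0 z) fun _ z' _ _ _ => swn (h0 z')

/-- Adding an edge at a vertex with one neighbour `w`. -/
theorem SF.ins1 {F : Finset (Sym2 V)} {a x w : V} (h : SF F) (hax : a ≠ x)
    (hw : ∀ z, s(a, z) ∈ F → z = w) (h1 : s(w, x) ∉ F)
    (h2 : ∀ z, z ≠ a → s(w, z) ∈ F → s(z, x) ∉ F) : SF (insert s(a, x) F) := by
  refine h.ins hax (fun z hz => ?_) fun z z' hz hzz' hz' => ?_
  · rw [hw z hz]
    exact swn h1
  · rw [hw z hz] at hzz'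
    exact h2 z' hz' hzz'

theorem dg_zero {F : Finset (Sym2 V)} {v : V} (h : dg F v = 0) (z : V) : s(v, z) ∉ F := by
  intro h'
  have := dg_pos h'
  omega

theorem dg_one {F : Finset (Sym2 V)} {v : V} (h : dg F v = 1) {y z : V} (hy : s(v, y) ∈ F)
    (hz : s(v, z) ∈ F) : z = y := by
  unfold dg at h
  rw [card_eq_one] at h
  obtain ⟨e, he⟩ := h
  have h1 : s(v, y) = e := mem_singleton.1 (he ▸ mem_filter.2 ⟨hy, by simp⟩)
  have h2 : s(v, z) = e := mem_singleton.1 (he ▸ mem_filter.2 ⟨hz, by simp⟩)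
  have h3 := h2.trans h1.symm
  rw [Sym2.eq_iff] at h3
  rcases h3 with h3 | h3
  · exact h3.2
  · exact h3.2.trans h3.1

theorem dg_two {F : Finset (Sym2 V)} {v : V} (h : dg F v = 2) {x y z : V} (hx : s(v, x) ∈ F)
    (hy : s(v, y) ∈ F) (hxy : x ≠ y) (hz : s(v, z) ∈ F) : z = x ∨ z = y := by
  by_cases h1 : z = x
  · exact Or.inl h1
  · right
    have key := dg_erase hx v
    rw [if_pos (Or.inl rfl)] at key
    have h2 : ∀ u, u ≠ x → s(v, u) ∈ F → s(v, u) ∈ F.erase s(v, x) := by
      intro u hu hu'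
      rw [mem_erase]
      refine ⟨fun he => ?_, hu'⟩
      rw [Sym2.eq_iff] at he
      rcases he with he | he
      · exact hu he.2
      · exact hu (he.2.trans he.1)
    exact dg_one (F := F.erase s(v, x)) (v := v) (by omega) (h2 y (Ne.symm hxy) hy) (h2 z h1 hz)

theorem ex_one {F : Finset (Sym2 V)} {v : V} (h : 0 < dg F v) : ∃ w, s(v, w) ∈ F := by
  obtain ⟨u, hu, _⟩ := exists_edge (F := F) (F' := ∅) (a := v) (by simpa [dg] using h)
  exact ⟨u, hu⟩

theorem ex_other {F : Finset (Sym2 V)} {v x : V} (h : dg F v = 2) (hx : s(v, x) ∈ F) :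
    ∃ y, y ≠ x ∧ s(v, y) ∈ F := by
  have key := dg_erase hx v
  rw [if_pos (Or.inl rfl)] at key
  obtain ⟨y, hy⟩ := ex_one (F := F.erase s(v, x)) (v := v) (by omega)
  rw [mem_erase] at hy
  exact ⟨y, fun e => hy.1 (by rw [e]), hy.2⟩

/-- two neighbours exclude degree one -/
theorem ne_one {F : Finset (Sym2 V)} {v x y : V} (hx : s(v, x) ∈ F) (hy : s(v, y) ∈ F)
    (hxy : x ≠ y) : dg F v ≠ 1 := fun h => hxy (dg_one h hy hx)

/-- The size of the symmetric difference. -/
def mu (F F₂ : Finset (Sym2 V)) : ℕ := (F \ F₂).card + (F₂ \ F).card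

theorem mu_symm (F F₂ : Finset (Sym2 V)) : mu F F₂ = mu F₂ F := by
  unfold mu
  omega

theorem mu_add {F F₂ : Finset (Sym2 V)} {e : Sym2 V} (h2 : e ∈ F₂) (h : e ∉ F) :
    mu (insert e F) F₂ + 1 = mu F F₂ := by
  unfold mu
  have h3 : insert e F \ F₂ = F \ F₂ := insert_sdiff_of_mem F h2
  have h4 : F₂ \ insert e F = (F₂ \ F).erase e := by
    rw [insert_eq, sdiff_union_distrib]
    ext x
    simp only [mem_inter, mem_sdiff, mem_singleton, mem_erase]
    tauto
  rw [h3, h4]
  have := card_erase_add_one (mem_sdiff.2 ⟨h2, h⟩)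
  omega

theorem mu_new {F F₂ : Finset (Sym2 V)} {e : Sym2 V} (h2 : e ∉ F₂) (h : e ∉ F) :
    mu (insert e F) F₂ = mu F F₂ + 1 := by
  unfold mu
  have h3 : insert e F \ F₂ = insert e (F \ F₂) := insert_sdiff_of_notMem F h2
  have h4 : F₂ \ insert e F = F₂ \ F := by
    ext x
    simp only [mem_sdiff, mem_insert]
    constructor
    · exact fun hx => ⟨hx.1, fun h5 => hx.2 (Or.inr h5)⟩
    · exact fun hx => ⟨hx.1, fun h5 => h5.elim (fun h6 => h2 (h6 ▸ hx.1)) hx.2⟩
  rw [h3, h4, card_insert_of_notMem fun h5 => h (mem_sdiff.1 h5).1]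
  omega

theorem mu_rem {F F₂ : Finset (Sym2 V)} {e : Sym2 V} (h2 : e ∉ F₂) (h : e ∈ F) :
    mu (F.erase e) F₂ + 1 = mu F F₂ := by
  have h3 := mu_new (F := F.erase e) h2 (notMem_erase e F)
  rw [insert_erase h] at h3
  omega

theorem mu_rot {F F₂ : Finset (Sym2 V)} {e : Sym2 V} (h2 : e ∈ F₂) (h : e ∈ F) :
    mu (F.erase e) F₂ = mu F F₂ + 1 := by
  have h3 := mu_add (F := F.erase e) h2 (notMem_erase e F)
  rw [insert_erase h] at h3
  omega

theorem sne {p q r t : V} (h1 : p ≠ r ∨ q ≠ t) (h2 : p ≠ t ∨ q ≠ r) : s(p, q) ≠ s(r, t) := by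
  intro he
  rw [Sym2.eq_iff] at he
  rcases he with ⟨h3, h4⟩ | ⟨h3, h4⟩
  · exact h1.elim (fun h => h h3) fun h => h h4
  · exact h2.elim (fun h => h h3) fun h => h h4

end H96TF
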