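import Pool.Agent.Lib.H96TF.E5a

/-!
# H96TF, file E5b: the walk for covers without cycles of length 3 and 4
-/

set_option autoImplicit false

namespace H96TF

open Finset H85TF

variable {V : Type*} [DecidableEq V]

/-- No rotation at `d` is possible which removes `d δ`. -/
def Hd (F₁ F₂ : Finset (Sym2 V)) (d δ : V) : Prop :=
  ∀ a w, s(d, a) ∈ F₂ → a ≠ δ → s(a, w) ∈ F₂ → w ≠ d → s(w, δ) ∉ F₁

/-- The result of the walk. -/
def End5 (F₁ F₂ : Finset (Sym2 V)) (A : Finset V) (b d δ : V) : Prop :=
  ∃ F' ⊆ F₁ ∪ F₂, SF F' ∧ (∀ v ∈ A, dg F' v = 2) ∧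
    (((∀ v, dg F' v = 0 ∨ dg F' v = 2) ∧ dg F' b = 2 ∧ dg F' d = 2) ∨
      (dg F' b = 1 ∧ dg F' d = 1 ∧ (∀ v, v ≠ b → v ≠ d → dg F' v = 0 ∨ dg F' v = 2) ∧
        (Hd F₁ F₂ d δ → s(d, δ) ∈ F')))

theorem walk5 {F₁ F₂ : Finset (Sym2 V)} (s1 : SF F₁) (s2 : SF F₂)
    {A : Finset V} {b d δ : V} (hbd : b ≠ d) (hbA : b ∉ A) (hdA : d ∉ A)
    (hd1 : dg F₁ d = 0) (hb2 : dg F₂ b = 0) (hdeg2 : ∀ v, dg F₂ v = 0 ∨ dg F₂ v = 2)
    (hA2 : ∀ v ∈ A, dg F₂ v = 2) :
    ∀ (k : ℕ) (F : Finset (Sym2 V)) (a : V), mu F F₂ < k → F ⊆ F₁ ∪ F₂ → SF F →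
      a ≠ b → a ≠ d → dg F d = 1 → dg F b = 2 → (dg F a = 1 ∨ dg F a = 3) →
      (∀ v, v ≠ a → v ≠ d → dg F v = 0 ∨ dg F v = 2) → (∀ v ∈ A, v ≠ a → dg F v = 2) →
      (Hd F₁ F₂ d δ → s(d, δ) ∈ F) → End5 F₁ F₂ A b d δ := by
  intro k
  induction k with
  | zero => intro F a h; omega
  | succ k ih =>
    intro F a hk hF hS hab had hd hb ha hdeg hA hδ
    have hEu : ∀ {x y : V}, s(x, y) ∈ F₁ ∪ F₂ → x ≠ y := by
      intro x y hxy
      rcases mem_union.1 hxy with h | h
      · exact s1.ne h
      · exact s2.ne h
    -- the edges at `d` are in `F₂`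
    have hdF : ∀ u, s(d, u) ∈ F → s(d, u) ∈ F₂ := by
      intro u hu
      rcases mem_union.1 (hF hu) with h | h
      · exact absurd h (dg_zero hd1 u)
      · exact h
    have hnd : ∀ {x v : V}, s(x, v) ∈ F → s(x, v) ∉ F₂ → x ≠ d ∧ v ≠ d := by
      intro x v hx hx2
      refine ⟨?_, ?_⟩
      · rintro rfl
        exact hx2 (hdF v hx)
      · rintro rfl
        exact hx2 (sw (hdF x (sw hx)))
    -- removing an edge at the active vertex
    have rem : dg F₂ a < dg F a → (dg F a = 1 → dg F₂ a = 0) → End5 F₁ F₂ A b d δ := by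
      intro hlt hz
      obtain ⟨u, hu, hu2⟩ := exists_edge hlt
      have hau : a ≠ u := hEu (hF hu)
      have hud : u ≠ d := (hnd hu hu2).2
      have key := dg_erase hu
      have kd := key d
      rw [if_neg (by push Not; exact ⟨Ne.symm had, Ne.symm hud⟩)] at kd
      have ka := key a
      rw [if_pos (Or.inl rfl)] at ka
      have ku := key u
      rw [if_pos (Or.inr rfl)] at ku
      have hF' : F.erase s(a, u) ⊆ F₁ ∪ F₂ := (erase_subset _ _).trans hF
      have hS' : SF (F.erase s(a, u)) := hS.mono (erase_subset _ _)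
      have hδ' : Hd F₁ F₂ d δ → s(d, δ) ∈ F.erase s(a, u) := fun h =>
        mem_erase.2 ⟨sne (Or.inl (Ne.symm had)) (Or.inl (Ne.symm hud)), hδ h⟩
      have haA : a ∈ A → dg (F.erase s(a, u)) a = 2 := by
        intro h3
        have h4 := hA2 a h3
        rcases ha with h5 | h5
        · have := hz h5
          omega
        · omega
      have ha' : dg (F.erase s(a, u)) a = 0 ∨ dg (F.erase s(a, u)) a = 2 := by omega
      have hAA : ∀ v ∈ A, v ≠ u → dg (F.erase s(a, u)) v = 2 := by
        intro v hv hvu
        by_cases h3 : v = a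
        · subst h3; exact haA hv
        · have h5 := key v
          rw [if_neg (by push Not; exact ⟨h3, hvu⟩)] at h5
          have := hA v hv h3
          omega
      have hdd : ∀ v, v ≠ u → v ≠ d → dg (F.erase s(a, u)) v = 0 ∨ dg (F.erase s(a, u)) v = 2 := by
        intro v hv1 hv2
        by_cases h3 : v = a
        · subst h3; exact ha'
        · have h5 := key v
          rw [if_neg (by push Not; exact ⟨h3, hv1⟩)] at h5
          have := hdeg v h3 hv2
          omega
      by_cases hub : u = b
      · subst hub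
        exact ⟨F.erase s(a, u), hF', hS', fun v hv => hAA v hv fun e => hbA (e ▸ hv),
          Or.inr ⟨by omega, by omega, hdd, hδ'⟩⟩
      · refine ih (F.erase s(a, u)) u ?_ hF' hS' hub hud (by omega) ?_ ?_ hdd hAA hδ'
        · have := mu_rem hu2 hu
          omega
        · have h5 := key b
          rw [if_neg (by push Not; exact ⟨Ne.symm hab, Ne.symm hub⟩)] at h5
          omega
        · have := hdeg u (Ne.symm hau) hud
          omega
    rcases ha with ha | ha
    swap
    · have := hdeg2 a
      exact rem (by omega) (fun h => by omega)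
    rcases hdeg2 a with h0 | h0
    · exact rem (by omega) (fun _ => h0)
    -- general continuation
    have go : ∀ (G : Finset (Sym2 V)) (x : V), mu G F₂ < k → G ⊆ F₁ ∪ F₂ → SF G → x ≠ b →
        dg G b = 2 → (x ≠ d → dg G d = 1 ∧ (dg G x = 1 ∨ dg G x = 3)) → (x = d → dg G d = 2) →
        (∀ v, v ≠ x → v ≠ d → dg G v = 0 ∨ dg G v = 2) → (∀ v ∈ A, v ≠ x → dg G v = 2) →
        (Hd F₁ F₂ d δ → s(d, δ) ∈ G) → End5 F₁ F₂ A b d δ := by
      intro G x g1 g2 g3 g4 g5 g6 g7 g8 g9 g10
      by_cases hxd : x = d
      · subst hxd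
        refine ⟨G, g2, g3, fun v hv => g9 v hv fun e => hdA (e ▸ hv), Or.inl ⟨?_, g5, g7 rfl⟩⟩
        intro v
        by_cases hv : v = x
        · subst hv
          exact Or.inr (g7 rfl)
        · exact g8 v hv hv
      · obtain ⟨h1, h2⟩ := g6 hxd
        exact ih G x g1 g2 g3 g4 hxd h1 g5 h2 g8 g9 g10
    -- move 1: add `a x`
    have m1 : ∀ x, s(a, x) ∈ F₂ → s(a, x) ∉ F → SF (insert s(a, x) F) →
        End5 F₁ F₂ A b d δ := by
      intro x hx2 hx hSx
      have hax : a ≠ x := s2.ne hx2
      have hxb : x ≠ b := by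
        rintro rfl
        exact dg_zero hb2 a (sw hx2)
      have key := dg_insert hx
      have ka := key a
      rw [if_pos (Or.inl rfl)] at ka
      have kx := key x
      rw [if_pos (Or.inr rfl)] at kx
      have kb := key b
      rw [if_neg (by push Not; exact ⟨Ne.symm hab, Ne.symm hxb⟩)] at kb
      refine go (insert s(a, x) F) x ?_ (insert_subset (mem_union_right _ hx2) hF) hSx hxb
        (by omega) ?_ ?_ ?_ ?_ fun h => mem_insert_of_mem (hδ h)
      · have := mu_add hx2 hx
        omega
      · intro hxd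
        have kd := key d
        rw [if_neg (by push Not; exact ⟨Ne.symm had, Ne.symm hxd⟩)] at kd
        have := hdeg x (Ne.symm hax) hxd
        omega
      · rintro rfl
        omega
      · intro v hv1 hv2
        by_cases h3 : v = a
        · subst h3; omega
        · have h5 := key v
          rw [if_neg (by push Not; exact ⟨h3, hv1⟩)] at h5
          have := hdeg v h3 hv2
          omega
      · intro v hv hv1
        by_cases h3 : v = a
        · subst h3; omega
        · have h5 := key v
          rw [if_neg (by push Not; exact ⟨h3, hv1⟩)] at h5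
          have := hA v hv h3
          omega
    -- move 2: add `a x`, remove `x v`
    have m2 : ∀ x v, s(a, x) ∈ F₂ → s(a, x) ∉ F → s(x, v) ∈ F → s(x, v) ∉ F₂ →
        SF (insert s(a, x) (F.erase s(x, v))) → End5 F₁ F₂ A b d δ := by
      intro x v hx2 hx hxv hxv2 hSx
      have hax : a ≠ x := s2.ne hx2
      have hxv' : x ≠ v := hS.ne hxv
      obtain ⟨hxd, hvd⟩ := hnd hxv hxv2
      have hva : v ≠ a := by
        rintro rfl
        exact hx (sw hxv)
      have hx' : s(a, x) ∉ F.erase s(x, v) := fun h => hx (mem_of_mem_erase h)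
      have key1 := dg_erase hxv
      have key2 := dg_insert hx'
      have deg : ∀ z, z ≠ a → z ≠ v → dg (insert s(a, x) (F.erase s(x, v))) z = dg F z := by
        intro z hz1 hz2
        have e1 := key1 z
        have e2 := key2 z
        by_cases hzx : z = x
        · subst hzx
          rw [if_pos (Or.inl rfl)] at e1
          rw [if_pos (Or.inr rfl)] at e2
          omega
        · rw [if_neg (by push Not; exact ⟨hzx, hz2⟩)] at e1
          rw [if_neg (by push Not; exact ⟨hz1, hzx⟩)] at e2
          omega
      have da : dg (insert s(a, x) (F.erase s(x, v))) a = 2 := by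
        have e1 := key1 a
        have e2 := key2 a
        rw [if_neg (by push Not; exact ⟨hax, Ne.symm hva⟩)] at e1
        rw [if_pos (Or.inl rfl)] at e2
        omega
      have dv : dg (insert s(a, x) (F.erase s(x, v))) v + 1 = dg F v := by
        have e1 := key1 v
        have e2 := key2 v
        rw [if_pos (Or.inr rfl)] at e1
        rw [if_neg (by push Not; exact ⟨hva, Ne.symm hxv'⟩)] at e2
        omega
      have dv2 : dg F v = 2 := by
        have h1 := hdeg v hva hvd
        have h2 := dg_pos' hxv
        omega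
      have hF' : insert s(a, x) (F.erase s(x, v)) ⊆ F₁ ∪ F₂ :=
        insert_subset (mem_union_right _ hx2) ((erase_subset _ _).trans hF)
      have hδ' : Hd F₁ F₂ d δ → s(d, δ) ∈ insert s(a, x) (F.erase s(x, v)) := fun h =>
        mem_insert_of_mem
          (mem_erase.2 ⟨sne (Or.inl (Ne.symm hxd)) (Or.inl (Ne.symm hvd)), hδ h⟩)
      have hmu : mu (insert s(a, x) (F.erase s(x, v))) F₂ < k := by
        have h1 := mu_rem hxv2 hxv
        have h2 := mu_add hx2 hx'
        omega
      have hdd : ∀ z, z ≠ v → z ≠ d → dg (insert s(a, x) (F.erase s(x, v))) z = 0 ∨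
          dg (insert s(a, x) (F.erase s(x, v))) z = 2 := by
        intro z hz1 hz2
        by_cases hza : z = a
        · subst hza
          exact Or.inr da
        · rw [deg z hza hz1]
          exact hdeg z hza hz2
      have hAA : ∀ z ∈ A, z ≠ v → dg (insert s(a, x) (F.erase s(x, v))) z = 2 := by
        intro z hz hz1
        by_cases hza : z = a
        · subst hza
          exact da
        · rw [deg z hza hz1]
          exact hA z hz hza
      have hdd' : dg (insert s(a, x) (F.erase s(x, v))) d = 1 := by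
        rw [deg d (Ne.symm had) (Ne.symm hvd)]
        exact hd
      by_cases hvb : v = b
      · subst hvb
        exact ⟨_, hF', hSx, fun z hz => hAA z hz fun e => hbA (e ▸ hz),
          Or.inr ⟨by omega, hdd', hdd, hδ'⟩⟩
      · refine ih _ v hmu hF' hSx hvb hvd hdd' ?_ (Or.inl (by omega)) hdd hAA hδ'
        rw [deg b (Ne.symm hab) (Ne.symm hvb)]
        exact hb
    -- move 3: rotation
    have m3 : ∀ t y y' : V, s(a, t) ∈ F₂ → s(a, t) ∉ F → s(y, t) ∈ F → s(y, t) ∈ F₂ →
        s(y, y') ∈ F₂ → s(y, y') ∉ F → y ≠ a → y ≠ d → y' ≠ a → y' ≠ t →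
        SF (insert s(y, y') (insert s(a, t) (F.erase s(y, t)))) →
        (Hd F₁ F₂ d δ → s(d, δ) ≠ s(y, t)) → End5 F₁ F₂ A b d δ := by
      intro t y y' ht2 ht hyt hyt2 hyy2 hyy hya hyd hy'a hy't hSx hHd
      have hat : a ≠ t := s2.ne ht2
      have hyt' : y ≠ t := hS.ne hyt
      have hyy' : y ≠ y' := s2.ne hyy2
      have hyb : y ≠ b := by
        rintro rfl
        exact dg_zero hb2 t hyt2
      have htb : t ≠ b := by
        rintro rfl
        exact dg_zero hb2 a (sw ht2)
      have hy'b : y' ≠ b := by
        rintro rfl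
        exact dg_zero hb2 y (sw hyy2)
      have n1 : s(a, t) ∉ F.erase s(y, t) := fun h => ht (mem_of_mem_erase h)
      have n2 : s(y, y') ∉ insert s(a, t) (F.erase s(y, t)) := by
        intro h
        rcases mem_insert.1 h with h | h
        · exact sne (Or.inl hya) (Or.inr hy'a) h
        · exact hyy (mem_of_mem_erase h)
      have key1 := dg_erase hyt
      have key2 := dg_insert n1
      have key3 := dg_insert n2
      have dy : dg F y = 2 := by
        have h1 := hdeg y hya hyd
        have h2 := dg_pos hyt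
        omega
      obtain ⟨G, hG⟩ : ∃ G, G = insert s(y, y') (insert s(a, t) (F.erase s(y, t))) := ⟨_, rfl⟩
      rw [← hG] at key3 hSx
      have deg : ∀ z, z ≠ a → z ≠ y' → dg G z = dg F z := by
        intro z hz1 hz2
        have e1 := key1 z
        have e2 := key2 z
        have e3 := key3 z
        by_cases hzy : z = y
        · subst hzy
          rw [if_pos (Or.inl rfl)] at e1 e3
          rw [if_neg (by push Not; exact ⟨hz1, hyt'⟩)] at e2
          omega
        · by_cases hzt : z = t
          · subst hzt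
            rw [if_pos (Or.inr rfl)] at e1 e2
            rw [if_neg (by push Not; exact ⟨hzy, hz2⟩)] at e3
            omega
          · rw [if_neg (by push Not; exact ⟨hzy, hzt⟩)] at e1
            rw [if_neg (by push Not; exact ⟨hz1, hzt⟩)] at e2
            rw [if_neg (by push Not; exact ⟨hzy, hz2⟩)] at e3
            omega
      have da : dg G a = 2 := by
        have e1 := key1 a
        have e2 := key2 a
        have e3 := key3 a
        rw [if_neg (by push Not; exact ⟨Ne.symm hya, hat⟩)] at e1
        rw [if_pos (Or.inl rfl)] at e2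
        rw [if_neg (by push Not; exact ⟨Ne.symm hya, Ne.symm hy'a⟩)] at e3
        omega
      have dy' : dg G y' = dg F y' + 1 := by
        have e1 := key1 y'
        have e2 := key2 y'
        have e3 := key3 y'
        rw [if_neg (by push Not; exact ⟨Ne.symm hyy', hy't⟩)] at e1
        rw [if_neg (by push Not; exact ⟨hy'a, hy't⟩)] at e2
        rw [if_pos (Or.inr rfl)] at e3
        omega
      refine go G y' ?_ ?_ hSx hy'b ?_ ?_ ?_ ?_ ?_ ?_
      · have h1 := mu_rot hyt2 hyt
        have h2 := mu_add ht2 n1
        have h3 := mu_add hyy2 n2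
        rw [← hG] at h3
        omega
      · rw [hG]
        exact insert_subset (mem_union_right _ hyy2)
          (insert_subset (mem_union_right _ ht2) ((erase_subset _ _).trans hF))
      · rw [deg b (Ne.symm hab) (Ne.symm hy'b)]
        exact hb
      · intro h
        rw [deg d (Ne.symm had) (Ne.symm h)]
        have := hdeg y' hy'a h
        exact ⟨hd, by omega⟩
      · intro h
        rw [h] at dy'
        omega
      · intro z hz1 hz2
        by_cases hza : z = a
        · subst hza
          exact Or.inr da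
        · rw [deg z hza hz1]
          exact hdeg z hza hz2
      · intro z hz hz1
        by_cases hza : z = a
        · subst hza
          exact da
        · rw [deg z hza hz1]
          exact hA z hz hza
      · intro h
        rw [hG]
        exact mem_insert_of_mem (mem_insert_of_mem (mem_erase.2 ⟨hHd h, hδ h⟩))
    -- the neighbour of `a`
    obtain ⟨w, haw⟩ := ex_one (F := F) (v := a) (by omega)
    have hw1 : ∀ z, s(a, z) ∈ F → z = w := fun z hz => dg_one ha haw hz
    have haw' : a ≠ w := hS.ne haw
    have hwz : ∀ y, y ≠ a → s(w, y) ∈ F → dg F w = 2 ∧ ∀ z, s(w, z) ∈ F → z = a ∨ z = y := by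
      intro y hya hwy
      have h1 : dg F w ≠ 1 := ne_one (sw haw) hwy (Ne.symm hya)
      have h2 : w ≠ d := fun e => h1 (e ▸ hd)
      have h3 := hdeg w (Ne.symm haw') h2
      have h4 := dg_pos' haw
      have h5 : dg F w = 2 := by omega
      exact ⟨h5, fun z hz => dg_two h5 (sw haw) hwy (Ne.symm hya) hz⟩
    -- closing the end: the edge set after erasing the right edge
    have sfe : ∀ x v, a ≠ x → s(a, x) ∉ F → s(w, x) ∉ F.erase s(x, v) →
        (∀ z, z ≠ a → s(w, z) ∈ F.erase s(x, v) → s(z, x) ∉ F.erase s(x, v)) →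
        SF (insert s(a, x) (F.erase s(x, v))) := by
      intro x v hax hx h1 h2
      exact (hS.mono (erase_subset _ _)).ins1 hax (fun z hz => hw1 z (mem_of_mem_erase hz)) h1 h2
    by_cases hgood : ∃ x, s(a, x) ∈ F₂ ∧ s(a, x) ∉ F ∧ s(w, x) ∉ F ∧
        ∀ z, z ≠ a → s(w, z) ∈ F → s(z, x) ∉ F
    · obtain ⟨x, hx2, hx, hwx, hxx⟩ := hgood
      exact m1 x hx2 hx (hS.ins1 (s2.ne hx2) hw1 hwx hxx)
    push Not at hgood
    have hbad : ∀ x, s(a, x) ∈ F₂ → s(a, x) ∉ F → s(w, x) ∈ F ∨
        ∃ z, z ≠ a ∧ s(w, z) ∈ F ∧ s(z, x) ∈ F := by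
      intro x h1 h2
      by_cases h3 : s(w, x) ∈ F
      · exact Or.inl h3
      · exact Or.inr (hgood x h1 h2 h3)
    by_cases hY : ∃ x, s(a, x) ∈ F₂ ∧ s(a, x) ∉ F ∧ s(w, x) ∈ F
    · obtain ⟨x, hx2, hx, hwx⟩ := hY
      have hax : a ≠ x := s2.ne hx2
      obtain ⟨dw, hwn⟩ := hwz x (Ne.symm hax) hwx
      by_cases hwx2 : s(w, x) ∈ F₂
      · -- `a w` is not in `F₂`
        have haw2 : s(a, w) ∉ F₂ := fun h => s2.1 a w x h hwx2 (sw hx2)
        obtain ⟨x', hx'x, hx'2⟩ := ex_other h0 hx2
        have hx'w : x' ≠ w := by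
          rintro rfl
          exact haw2 hx'2
        have hx'F : s(a, x') ∉ F := fun h => hx'w (hw1 x' h)
        have hax' : a ≠ x' := s2.ne hx'2
        have hwx' : s(w, x') ∉ F := by
          intro h
          rcases hwn x' h with h | h
          · exact hax' h.symm
          · exact hx'x h
        rcases hbad x' hx'2 hx'F with h | ⟨z, hza, hwzF, hzx'⟩
        · exact absurd h hwx'
        · have hzx : z = x := (hwn z hwzF).resolve_left hza
          rw [hzx] at hzx'
          have hxx'2 : s(x, x') ∉ F₂ := fun h => s2.1 a x x' hx2 h (sw hx'2)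
          refine m2 x' x hx'2 hx'F (sw hzx') (swn hxx'2) (sfe x' x hax' hx'F ?_ ?_)
          · exact fun h => hwx' (mem_of_mem_erase h)
          · intro z' hz'a hz' h
            have hz'x : z' = x := (hwn z' (mem_of_mem_erase hz')).resolve_left hz'a
            rw [hz'x, Sym2.eq_swap] at h
            exact (mem_erase.1 h).1 rfl
      · refine m2 x w hx2 hx (sw hwx) (swn hwx2) (sfe x w hax hx ?_ ?_)
        · intro h
          rw [Sym2.eq_swap] at h
          exact (mem_erase.1 h).1 rfl
        · intro z hza hz h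
          have hzx : z = x := (hwn z (mem_of_mem_erase hz)).resolve_left hza
          rw [hzx] at h
          exact hS.ne (mem_of_mem_erase h) rfl
    · push Not at hY
      obtain ⟨t, ht2, ht⟩ := exists_edge (F := F₂) (F' := F) (a := a) (by omega)
      have hat : a ≠ t := s2.ne ht2
      obtain ⟨y, hya, hwy, hyt⟩ := (hbad t ht2 ht).resolve_left (hY t ht2 ht)
      have hwt : s(w, t) ∉ F := hY t ht2 ht
      obtain ⟨dw, hwn⟩ := hwz y hya hwy
      have hwy' : w ≠ y := hS.ne hwy
      have hyt' : y ≠ t := hS.ne hyt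
      have htw : t ≠ w := by
        rintro rfl
        exact ht haw
      have hyd : y ≠ d := by
        rintro rfl
        exact ne_one (sw hwy) hyt (Ne.symm htw) hd
      have dy : dg F y = 2 := by
        have h1 := hdeg y hya hyd
        have h2 := dg_pos hyt
        omega
      have hyn : ∀ z, s(y, z) ∈ F → z = w ∨ z = t := fun z hz =>
        dg_two dy (sw hwy) hyt (Ne.symm htw) hz
      have haw2 : s(a, w) ∈ F₂ := by
        by_contra haw2
        obtain ⟨x', hx't, hx'2⟩ := ex_other h0 ht2
        have hx'w : x' ≠ w := by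
          rintro rfl
          exact haw2 hx'2
        have hx'F : s(a, x') ∉ F := fun h => hx'w (hw1 x' h)
        obtain ⟨z, hza, hwzF, hzx'⟩ := (hbad x' hx'2 hx'F).resolve_left (hY x' hx'2 hx'F)
        have hzy : z = y := (hwn z hwzF).resolve_left hza
        rw [hzy] at hzx'
        rcases hyn x' hzx' with h | h
        · exact hx'w h
        · exact hx't h
      have sft : SF (insert s(a, t) (F.erase s(t, y))) := by
        refine sfe t y hat ht (fun h => hwt (mem_of_mem_erase h)) ?_
        intro z hza hz h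
        have hzy : z = y := (hwn z (mem_of_mem_erase hz)).resolve_left hza
        rw [hzy, Sym2.eq_swap] at h
        exact (mem_erase.1 h).1 rfl
      by_cases hyt2 : s(y, t) ∈ F₂
      · -- rotation
        have hwy2 : s(w, y) ∉ F₂ := fun h =>
          s2.2 a w y t (Ne.symm hya) (Ne.symm htw) haw2 h hyt2 (sw ht2)
        have dy2 : dg F₂ y = 2 := by
          have h1 := hdeg2 y
          have h2 := dg_pos hyt2
          omega
        obtain ⟨y', hy't, hy'2⟩ := ex_other dy2 hyt2
        have hyy' : y ≠ y' := s2.ne hy'2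
        have hy'w : y' ≠ w := by
          rintro rfl
          exact hwy2 (sw hy'2)
        have hy'a : y' ≠ a := by
          rintro rfl
          rcases dg_two h0 haw2 ht2 (Ne.symm htw) (sw hy'2) with h | h
          · exact hwy' h.symm
          · exact hyt' h
        have hy'F : s(y, y') ∉ F := by
          intro h
          rcases hyn y' h with h | h
          · exact hy'w h
          · exact hy't h
        have hsw : (F.erase s(t, y)) = F.erase s(y, t) := by rw [Sym2.eq_swap]
        rw [hsw] at sft
        refine m3 t y y' ht2 ht hyt hyt2 hy'2 hy'F hya hyd hy'a hy't ?_ ?_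
        · refine sft.ins1 (w := w) hyy' ?_ ?_ ?_
          · intro z hz
            rcases mem_insert.1 hz with h | h
            · exact absurd h (sne (Or.inl hya) (Or.inl hyt'))
            · rcases hyn z (mem_of_mem_erase h) with h3 | h3
              · exact h3
              · rw [h3] at h
                exact absurd rfl (mem_erase.1 h).1
          · intro h
            rcases mem_insert.1 h with h | h
            · exact sne (Or.inl (Ne.symm haw')) (Or.inl (Ne.symm htw)) h
            · rcases hwn y' (mem_of_mem_erase h) with h3 | h3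
              · exact hy'a h3
              · exact hyy' h3.symm
          · intro z hzy hz h
            have hza : z = a := by
              rcases mem_insert.1 hz with h3 | h3
              · exact absurd h3 (sne (Or.inl (Ne.symm haw')) (Or.inl (Ne.symm htw)))
              · exact (hwn z (mem_of_mem_erase h3)).resolve_right hzy
            rw [hza] at h
            rcases mem_insert.1 h with h3 | h3
            · exact sne (Or.inr hy't) (Or.inl hat) h3
            · exact hy'w (hw1 y' (mem_of_mem_erase h3))
        · intro hH he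
          rw [Sym2.eq_iff] at he
          rcases he with ⟨h3, h4⟩ | ⟨h3, h4⟩
          · exact hyd h3.symm
          · subst h3
            subst h4
            have hwy1 : s(w, δ) ∈ F₁ := by
              rcases mem_union.1 (hF hwy) with h5 | h5
              · exact h5
              · exact absurd h5 hwy2
            exact hH a w (sw ht2) (Ne.symm hya) haw2 (Ne.symm htw) hwy1
      · exact m2 t y ht2 ht (sw hyt) (swn hyt2) sft

/-- The run started at `δ`. -/
theorem run5 {F₁ F₂ : Finset (Sym2 V)} (s1 : SF F₁) (s2 : SF F₂)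
    {A : Finset V} {b d δ : V} (hdeg1 : ∀ v, dg F₁ v = 0 ∨ dg F₁ v = 2)
    (hdeg2 : ∀ v, dg F₂ v = 0 ∨ dg F₂ v = 2) (hA1 : ∀ v ∈ A, dg F₁ v = 2)
    (hA2 : ∀ v ∈ A, dg F₂ v = 2) (hb1 : dg F₁ b = 2) (hd1 : dg F₁ d = 0) (hb2 : dg F₂ b = 0)
    (hδ : s(d, δ) ∈ F₂) : End5 F₁ F₂ A b d δ := by
  have hbd : b ≠ d := by
    rintro rfl
    omega
  have hbA : b ∉ A := fun h => by
    have := hA2 b h
    omega
  have hdA : d ∉ A := fun h => by
    have := hA1 d h
    omega
  have hdδ : d ≠ δ := s2.ne hδ
  have hδb : δ ≠ b := by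
    rintro rfl
    exact dg_zero hb2 d (sw hδ)
  have hn : s(δ, d) ∉ F₁ := fun h => dg_zero hd1 δ (sw h)
  have key := dg_insert hn
  refine walk5 s1 s2 hbd hbA hdA hd1 hb2 hdeg2 hA2 (mu (insert s(δ, d) F₁) F₂ + 1)
    (insert s(δ, d) F₁) δ (by omega) ?_ ?_ hδb (Ne.symm hdδ) ?_ ?_ ?_ ?_ ?_ ?_
  · exact insert_subset (mem_union_right _ (sw hδ)) subset_union_left
  · exact s1.ins0 (Ne.symm hdδ) (dg_zero hd1)
  · have := key d
    rw [if_pos (Or.inr rfl)] at this
    omega
  · have := key b
    rw [if_neg (by push Not; exact ⟨Ne.symm hδb, hbd⟩)] at this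
    omega
  · have := key δ
    rw [if_pos (Or.inl rfl)] at this
    have := hdeg1 δ
    omega
  · intro v h1 h2
    have := key v
    rw [if_neg (by push Not; exact ⟨h1, h2⟩)] at this
    have := hdeg1 v
    omega
  · intro v hv h1
    have := key v
    rw [if_neg (by push Not; exact ⟨h1, fun e => hdA (e ▸ hv)⟩)] at this
    have := hA1 v hv
    omega
  · intro _
    rw [Sym2.eq_swap]
    exact mem_insert_self _ _

end H96TF
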