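import Pool.Agent.Lib.H96TF.E5b

/-!
# H96TF, file E5c: the exchange lemma for sets covered by disjoint cycles of length at least 5
-/

set_option autoImplicit false

namespace H96TF

open Finset H85TF

variable {V : Type*} [DecidableEq V]

/-- `A` is covered by pairwise disjoint cycles of `E` of length at least `5`. -/
def Cov5 (E : Finset (Sym2 V)) (A : Finset V) : Prop :=
  ∃ F ⊆ E, SF F ∧ (∀ v, dg F v = 0 ∨ dg F v = 2) ∧ ∀ v ∈ A, dg F v = 2

def L2 (F : Finset (Sym2 V)) (x d : V) : Prop := ∀ w, s(x, w) ∈ F → s(w, d) ∉ F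

def L3 (F : Finset (Sym2 V)) (x d : V) : Prop :=
  ∀ w z, s(x, w) ∈ F → z ≠ x → s(w, z) ∈ F → s(z, d) ∉ F

/-- Adding a path whose inner vertices have degree `0`. -/
theorem addPath5 {E : Finset (Sym2 V)} {d : V} :
    ∀ {x : V} (p : (SimpleGraph.fromEdgeSet (E : Set (Sym2 V))).Walk x d), p.IsPath →
      ∀ F : Finset (Sym2 V), F ⊆ E → SF F → x ≠ d → s(x, d) ∉ F → dg F x = 1 → dg F d = 1 →
      (∀ v, v ≠ x → v ≠ d → dg F v = 0 ∨ dg F v = 2) →
      (∀ r ∈ p.support, r ≠ x → r ≠ d → dg F r = 0) →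
      (3 ≤ p.length ∨ (L2 F x d ∧ (2 ≤ p.length ∨ L3 F x d))) →
      ∃ F' ⊆ E, SF F' ∧ (∀ v, dg F' v = 0 ∨ dg F' v = 2) ∧ dg F' x = 2 ∧ dg F' d = 2 ∧
        ∀ v, dg F v = 2 → dg F' v = 2 := by
  intro x p
  induction p with
  | nil => intro _ F _ _ h; exact absurd rfl h
  | @cons x y d h q ih =>
    intro hp F hF hS hxd hne hx hd hdeg hin hlen
    rw [SimpleGraph.fromEdgeSet_adj] at h
    obtain ⟨hxy, hxy'⟩ := h
    rw [SimpleGraph.Walk.cons_isPath_iff] at hp
    rw [SimpleGraph.Walk.length_cons] at hlen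
    by_cases hyd : y = d
    · subst hyd
      have hq : q.length = 0 := by
        have := SimpleGraph.Walk.isPath_iff_eq_nil.1 hp.1
        rw [this]
        rfl
      have h23 : L2 F x y ∧ L3 F x y := by
        rcases hlen with h1 | ⟨h1, h2 | h2⟩
        · omega
        · omega
        · exact ⟨h1, h2⟩
      have key := dg_insert hne
      refine ⟨insert s(x, y) F, insert_subset (by exact_mod_cast hxy) hF, ?_, ?_, ?_, ?_, ?_⟩
      · refine hS.ins hxy' (fun z hz => swn (h23.1 z hz)) fun z z' hz hzz' hz' => ?_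
        exact h23.2 z z' hz hz' hzz'
      · intro v
        rw [key v]
        by_cases h1 : v = x
        · subst h1; simp [hx]
        · by_cases h2 : v = y
          · subst h2; simp [hd]
          · simpa [h1, h2] using hdeg v h1 h2
      · rw [key x]; simp [hx]
      · rw [key y]; simp [hd]
      · intro v hv
        rw [key v]
        have h1 : v ≠ x := fun e => by subst e; omega
        have h2 : v ≠ y := fun e => by subst e; omega
        simpa [h1, h2] using hv
    · have hy0 : dg F y = 0 := hin y (by simp) (Ne.symm hxy') hyd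
      have hnF : s(x, y) ∉ F := fun h' => by
        have := dg_pos' h'
        omega
      have key := dg_insert hnF
      have hnd : s(x, d) ∉ insert s(x, y) F := by
        intro h'
        rcases mem_insert.1 h' with h' | h'
        · exact sne (Or.inr (Ne.symm hyd)) (Or.inl hxy') h'
        · exact hne h'
      have hy1 : ∀ z, s(y, z) ∈ insert s(x, y) F → z = x := by
        intro z hz
        rcases mem_insert.1 hz with h' | h'
        · rw [Sym2.eq_iff] at h'
          rcases h' with h' | h'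
          · exact absurd h'.1.symm hxy'
          · exact h'.2
        · exact absurd h' (dg_zero hy0 z)
      obtain ⟨F', hF', h0, h1, h2, h3, h4⟩ := ih hp.1 (insert s(x, y) F)
        (insert_subset (by exact_mod_cast hxy) hF) (hS.ins0 hxy' (dg_zero hy0)) hyd
        (fun h' => hxd (hy1 d h').symm)
        (by rw [key y]; simp [hy0])
        (by
          rw [key d]
          have h1 : d ≠ x := Ne.symm hxd
          have h2 : d ≠ y := Ne.symm hyd
          simpa [h1, h2] using hd)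
        (by
          intro v hv1 hv2
          rw [key v]
          by_cases h1 : v = x
          · subst h1; simp [hx]
          · simpa [h1, hv1] using hdeg v h1 hv2)
        (by
          intro r hr hr1 hr2
          have h1 : r ≠ x := fun e => hp.2 (e ▸ hr)
          rw [key r]
          have := hin r (by simp [hr]) h1 hr2
          simpa [h1, hr1] using this)
        (by
          right
          refine ⟨fun w hw => ?_, ?_⟩
          · rw [hy1 w hw]
            exact hnd
          · rcases hlen with h1 | ⟨h1, h2 | h2⟩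
            · left
              omega
            · right
              intro w z hw hzy hz h'
              rw [hy1 w hw] at hz
              have hz' : s(x, z) ∈ F := by
                rcases mem_insert.1 hz with h5 | h5
                · exact absurd h5 (sne (Or.inr hzy) (Or.inl hxy'))
                · exact h5
              rcases mem_insert.1 h' with h5 | h5
              · rw [Sym2.eq_iff] at h5
                rcases h5 with h5 | h5
                · exact hyd h5.2.symm
                · exact hzy h5.1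
              · exact h1 z hz' h5
            · right
              intro w z hw hzy hz h'
              rw [hy1 w hw] at hz
              have hz' : s(x, z) ∈ F := by
                rcases mem_insert.1 hz with h5 | h5
                · exact absurd h5 (sne (Or.inr hzy) (Or.inl hxy'))
                · exact h5
              rcases mem_insert.1 h' with h5 | h5
              · rw [Sym2.eq_iff] at h5
                rcases h5 with h5 | h5
                · exact hyd h5.2.symm
                · exact hzy h5.1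
              · exact h1 z hz' h5)
      refine ⟨F', hF', h0, h1, h4 x (by rw [key x]; simp [hx]), h3, fun v hv => h4 v ?_⟩
      rw [key v]
      have h5 : v ≠ x := fun e => by subst e; omega
      have h6 : v ≠ y := fun e => by subst e; omega
      simpa [h5, h6] using hv

/-- The result. -/
def Done5 (E : Finset (Sym2 V)) (A : Finset V) (b d : V) : Prop :=
  ∃ F' ⊆ E, SF F' ∧ (∀ v, dg F' v = 0 ∨ dg F' v = 2) ∧ (∀ v ∈ A, dg F' v = 2) ∧
    dg F' b = 2 ∧ dg F' d = 2

theorem Done5.symm {E : Finset (Sym2 V)} {A : Finset V} {b d : V} (h : Done5 E A b d) :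
    Done5 E A d b := by
  obtain ⟨F', h1, h2, h3, h4, h5, h6⟩ := h
  exact ⟨F', h1, h2, h3, h4, h6, h5⟩

/-- The data. -/
structure Prob5 (E F₁ F₂ : Finset (Sym2 V)) (A : Finset V) (b d : V) : Prop where
  e1 : F₁ ⊆ E
  e2 : F₂ ⊆ E
  s1 : SF F₁
  s2 : SF F₂
  g1 : ∀ v, dg F₁ v = 0 ∨ dg F₁ v = 2
  g2 : ∀ v, dg F₂ v = 0 ∨ dg F₂ v = 2
  a1 : ∀ v ∈ A, dg F₁ v = 2
  a2 : ∀ v ∈ A, dg F₂ v = 2
  b1 : dg F₁ b = 2
  b2 : dg F₂ b = 0
  d1 : dg F₁ d = 0
  d2 : dg F₂ d = 2

theorem Prob5.symm {E F₁ F₂ : Finset (Sym2 V)} {A : Finset V} {b d : V}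
    (h : Prob5 E F₁ F₂ A b d) : Prob5 E F₂ F₁ A d b :=
  ⟨h.e2, h.e1, h.s2, h.s1, h.g2, h.g1, h.a2, h.a1, h.d2, h.d1, h.b2, h.b1⟩

theorem Prob5.bd {E F₁ F₂ : Finset (Sym2 V)} {A : Finset V} {b d : V}
    (h : Prob5 E F₁ F₂ A b d) : b ≠ d := by
  rintro rfl
  have := h.b1
  have := h.d1
  omega

theorem Prob5.bA {E F₁ F₂ : Finset (Sym2 V)} {A : Finset V} {b d : V}
    (h : Prob5 E F₁ F₂ A b d) : b ∉ A := fun h' => by
  have := h.a2 b h'
  have := h.b2
  omega

theorem Prob5.dA {E F₁ F₂ : Finset (Sym2 V)} {A : Finset V} {b d : V}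
    (h : Prob5 E F₁ F₂ A b d) : d ∉ A := h.symm.bA

/-- INSERTION of `d` (and the path) beside `b`. -/
theorem insertion {E F₁ F₂ : Finset (Sym2 V)} {A : Finset V} {b d : V}
    (h : Prob5 E F₁ F₂ A b d) {w : V} (hbw : s(b, w) ∈ F₁) (hwd : s(w, d) ∈ F₂)
    (p : (SimpleGraph.fromEdgeSet (E : Set (Sym2 V))).Walk b d) (hp : p.IsPath)
    (hin : ∀ r ∈ p.support, r ≠ b → r ≠ d → dg F₁ r = 0) : Done5 E A b d := by
  have hbw' := h.s1.ne hbw
  have hwd' := h.s2.ne hwd
  have hbd := h.bd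
  have hd1 := dg_zero h.d1
  have n1 : s(w, d) ∉ F₁.erase s(b, w) := fun h' => hd1 w (sw (mem_of_mem_erase h'))
  have key1 := dg_erase hbw
  have key2 := dg_insert n1
  obtain ⟨G, hG⟩ : ∃ G, G = insert s(w, d) (F₁.erase s(b, w)) := ⟨_, rfl⟩
  rw [← hG] at key2
  have dw : dg F₁ w = 2 := by
    have h1 := h.g1 w
    have h2 := dg_pos' hbw
    omega
  have deg : ∀ v, v ≠ b → v ≠ d → dg G v = dg F₁ v := by
    intro v h1 h2
    have e1 := key1 v
    have e2 := key2 v
    by_cases h3 : v = w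
    · subst h3
      rw [if_pos (Or.inr rfl)] at e1
      rw [if_pos (Or.inl rfl)] at e2
      omega
    · rw [if_neg (by push Not; exact ⟨h1, h3⟩)] at e1
      rw [if_neg (by push Not; exact ⟨h3, h2⟩)] at e2
      omega
  have db : dg G b = 1 := by
    have e1 := key1 b
    have e2 := key2 b
    rw [if_pos (Or.inl rfl)] at e1
    rw [if_neg (by push Not; exact ⟨hbw', hbd⟩)] at e2
    have := h.b1
    omega
  have dd : dg G d = 1 := by
    have e1 := key1 d
    have e2 := key2 d
    rw [if_neg (by push Not; exact ⟨Ne.symm hbd, Ne.symm hwd'⟩)] at e1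
    rw [if_pos (Or.inr rfl)] at e2
    have := h.d1
    omega
  have hbG : ∀ v, s(b, v) ∈ G → s(b, v) ∈ F₁ ∧ v ≠ w := by
    intro v hv
    rw [hG] at hv
    rcases mem_insert.1 hv with h' | h'
    · exact absurd h' (sne (Or.inl hbw') (Or.inl hbd))
    · refine ⟨mem_of_mem_erase h', ?_⟩
      rintro rfl
      exact (mem_erase.1 h').1 rfl
  have hdG : ∀ v, s(v, d) ∈ G → v = w := by
    intro v hv
    rw [hG] at hv
    rcases mem_insert.1 hv with h' | h'
    · rw [Sym2.eq_iff] at h'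
      rcases h' with h' | h'
      · exact h'.1
      · exact absurd h'.2.symm hwd'
    · exact absurd (sw (mem_of_mem_erase h')) (hd1 v)
  have q1 : G ⊆ E := by
    rw [hG]
    exact insert_subset (h.e2 hwd) ((erase_subset _ _).trans h.e1)
  have q2 : SF G := by
    rw [hG]
    exact (h.s1.mono (erase_subset _ _)).ins0 hwd' fun z hz => hd1 z (mem_of_mem_erase hz)
  have q3 : s(b, d) ∉ G := fun h' => hbw' (hdG b h')
  have q4 : ∀ v, v ≠ b → v ≠ d → dg G v = 0 ∨ dg G v = 2 := by
    intro v h1 h2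
    rw [deg v h1 h2]
    exact h.g1 v
  have q5 : ∀ r ∈ p.support, r ≠ b → r ≠ d → dg G r = 0 := by
    intro r hr h1 h2
    rw [deg r h1 h2]
    exact hin r hr h1 h2
  have q6 : L2 G b d := fun v hv h' => (hbG v hv).2 (hdG v h')
  have q7 : L3 G b d := by
    intro v z hv hzb hvz h'
    obtain ⟨hv1, hvw⟩ := hbG v hv
    rw [hdG z h', hG] at hvz
    rcases mem_insert.1 hvz with h5 | h5
    · rw [Sym2.eq_iff] at h5
      rcases h5 with h5 | h5
      · exact hvw h5.1
      · rw [h5.1] at hv1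
        exact hd1 b (sw hv1)
    · exact h.s1.1 b v w hv1 (mem_of_mem_erase h5) (sw hbw)
  obtain ⟨F', f1, f2, f3, f4, f5, f6⟩ := addPath5 p hp G q1 q2 hbd q3 db dd q4 q5
    (Or.inr ⟨q6, Or.inr q7⟩)
  refine ⟨F', f1, f2, f3, fun v hv => f6 v ?_, f4, f5⟩
  rw [deg v (fun e => h.bA (e ▸ hv)) (fun e => h.dA (e ▸ hv))]
  exact h.a1 v hv

/-- Replace `w` by `d` in its cycle. -/
theorem rep5 {E F₁ F₂ : Finset (Sym2 V)} {A : Finset V} {b d : V}
    (h : Prob5 E F₁ F₂ A b d) {w w' : V} (hbw : s(b, w) ∈ F₁) (hww : s(w, w') ∈ F₁)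
    (hwb : w' ≠ b) (hwd : s(w', d) ∈ F₂) (hbd : s(b, d) ∈ E) :
    ∃ F₃ ⊆ E, SF F₃ ∧ (∀ v, dg F₃ v = 0 ∨ dg F₃ v = 2) ∧ dg F₃ w = 0 ∧ dg F₃ d = 2 ∧
      dg F₃ b = 2 ∧ (∀ v, v ≠ w → dg F₁ v = 2 → dg F₃ v = 2) ∧
      (s(w, w') ∉ F₂ → mu F₃ F₂ < mu F₁ F₂) := by
  have hbw' := h.s1.ne hbw
  have hww' := h.s1.ne hww
  have hwd' := h.s2.ne hwd
  have hbd' := h.bd
  have hd1 := dg_zero h.d1
  have hwd0 : w ≠ d := by
    rintro rfl
    exact hd1 b (sw hbw)
  have m1 : s(w, w') ∈ F₁.erase s(b, w) :=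
    mem_erase.2 ⟨sne (Or.inl (Ne.symm hbw')) (Or.inr hwb), hww⟩
  have n3 : s(b, d) ∉ (F₁.erase s(b, w)).erase s(w, w') := fun h' =>
    hd1 b (sw (mem_of_mem_erase (mem_of_mem_erase h')))
  have n4 : s(d, w') ∉ insert s(b, d) ((F₁.erase s(b, w)).erase s(w, w')) := by
    intro h'
    rcases mem_insert.1 h' with h' | h'
    · exact sne (Or.inl (Ne.symm hbd')) (Or.inr hwb) h'
    · exact hd1 w' (mem_of_mem_erase (mem_of_mem_erase h'))
  have key1 := dg_erase hbw
  have key2 := dg_erase m1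
  have key3 := dg_insert n3
  have key4 := dg_insert n4
  have dw : dg F₁ w = 2 := by
    have h1 := h.g1 w
    have h2 := dg_pos' hbw
    omega
  obtain ⟨K, hK⟩ : ∃ K, K = (F₁.erase s(b, w)).erase s(w, w') := ⟨_, rfl⟩
  have hKs : K ⊆ F₁ := by
    rw [hK]
    exact (erase_subset _ _).trans (erase_subset _ _)
  have sK : SF K := h.s1.mono hKs
  have sK2 : SF (insert s(b, d) K) := sK.ins0 hbd' fun z hz => hd1 z (hKs hz)
  obtain ⟨G, hG⟩ : ∃ G, G = insert s(d, w') (insert s(b, d) K) := ⟨_, rfl⟩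
  rw [← hK] at key2 key3 key4 n3 n4
  rw [← hG] at key4
  have deg : ∀ v, v ≠ w → v ≠ d → dg G v = dg F₁ v := by
    intro v h1 h2
    have e1 := key1 v
    have e2 := key2 v
    have e3 := key3 v
    have e4 := key4 v
    by_cases h3 : v = b
    · subst h3
      rw [if_pos (Or.inl rfl)] at e1 e3
      rw [if_neg (by push Not; exact ⟨h1, Ne.symm hwb⟩)] at e2
      rw [if_neg (by push Not; exact ⟨h2, Ne.symm hwb⟩)] at e4
      omega
    · by_cases h4 : v = w'
      · subst h4
        rw [if_neg (by push Not; exact ⟨h3, h1⟩)] at e1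
        rw [if_pos (Or.inr rfl)] at e2 e4
        rw [if_neg (by push Not; exact ⟨h3, h2⟩)] at e3
        omega
      · rw [if_neg (by push Not; exact ⟨h3, h1⟩)] at e1
        rw [if_neg (by push Not; exact ⟨h1, h4⟩)] at e2
        rw [if_neg (by push Not; exact ⟨h3, h2⟩)] at e3
        rw [if_neg (by push Not; exact ⟨h2, h4⟩)] at e4
        omega
  have dw0 : dg G w = 0 := by
    have e1 := key1 w
    have e2 := key2 w
    have e3 := key3 w
    have e4 := key4 w
    rw [if_pos (Or.inr rfl)] at e1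
    rw [if_pos (Or.inl rfl)] at e2
    rw [if_neg (by push Not; exact ⟨Ne.symm hbw', hwd0⟩)] at e3
    rw [if_neg (by push Not; exact ⟨hwd0, hww'⟩)] at e4
    omega
  have dd : dg G d = 2 := by
    have e1 := key1 d
    have e2 := key2 d
    have e3 := key3 d
    have e4 := key4 d
    rw [if_neg (by push Not; exact ⟨Ne.symm hbd', Ne.symm hwd0⟩)] at e1
    rw [if_neg (by push Not; exact ⟨Ne.symm hwd0, Ne.symm hwd'⟩)] at e2
    rw [if_pos (Or.inr rfl)] at e3
    rw [if_pos (Or.inl rfl)] at e4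
    have := h.d1
    omega
  refine ⟨G, ?_, ?_, ?_, dw0, dd, ?_, ?_, ?_⟩
  · rw [hG]
    exact insert_subset (h.e2 (sw hwd)) (insert_subset hbd (hKs.trans h.e1))
  · rw [hG]
    refine sK2.ins1 (w := b) (Ne.symm hwd') ?_ ?_ ?_
    · intro z hz
      rcases mem_insert.1 hz with h' | h'
      · rw [Sym2.eq_iff] at h'
        rcases h' with h' | h'
        · exact absurd h'.1.symm hbd'
        · exact h'.2
      · exact absurd (hKs h') (hd1 z)
    · intro h'
      rcases mem_insert.1 h' with h' | h'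
      · exact sne (Or.inr hwd') (Or.inl hbd') h'
      · exact h.s1.1 b w w' hbw hww (sw (hKs h'))
    · intro z hzd hz h'
      have hz1 : s(b, z) ∈ K := by
        rcases mem_insert.1 hz with h5 | h5
        · exact absurd h5 (sne (Or.inr hzd) (Or.inl hbd'))
        · exact h5
      have hzw : w ≠ z := by
        rintro rfl
        rw [hK] at hz1
        exact (mem_erase.1 (mem_of_mem_erase hz1)).1 rfl
      have hz' : s(z, w') ∈ F₁ := by
        rcases mem_insert.1 h' with h5 | h5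
        · exact absurd h5 (sne (Or.inr hwd') (Or.inl hzd))
        · exact hKs h5
      exact h.s1.2 b w w' z (Ne.symm hwb) hzw hbw hww (sw hz') (sw (hKs hz1))
  · intro v
    by_cases h1 : v = w
    · rw [h1]
      exact Or.inl dw0
    · by_cases h2 : v = d
      · rw [h2]
        exact Or.inr dd
      · rw [deg v h1 h2]
        exact h.g1 v
  · rw [deg b hbw' hbd']
    exact h.b1
  · intro v h1 h2
    rw [deg v h1 (by rintro rfl; have := h.d1; omega)]
    exact h2
  · intro hww2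
    have q1 := mu_rem (F := F₁) (F₂ := F₂) (e := s(b, w)) (dg_zero h.b2 w) hbw
    have q2 := mu_rem (F₂ := F₂) hww2 m1
    have q3 := mu_new (F₂ := F₂) (dg_zero h.b2 d) n3
    have q4 := mu_add (F₂ := F₂) (sw hwd) n4
    rw [← hK] at q2
    rw [← hG] at q4
    omega

theorem rep_done5 {E F₁ F₂ : Finset (Sym2 V)} {A : Finset V} {b d : V}
    (h : Prob5 E F₁ F₂ A b d) {w w' : V} (hbw : s(b, w) ∈ F₁) (hww : s(w, w') ∈ F₁)
    (hwb : w' ≠ b) (hwd : s(w', d) ∈ F₂) (hbd : s(b, d) ∈ E) (hwA : w ∉ A) :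
    Done5 E A b d := by
  obtain ⟨F₃, f1, f2, f3, _, f5, f6, f7, _⟩ := rep5 h hbw hww hwb hwd hbd
  exact ⟨F₃, f1, f2, f3, fun v hv => f7 v (fun e => hwA (e ▸ hv)) (h.a1 v hv), f6, f5⟩

theorem caseA5 {E F₁ F₂ : Finset (Sym2 V)} {A : Finset V} {b d : V}
    (h : Prob5 E F₁ F₂ A b d) {w w' : V} (hbw : s(b, w) ∈ F₁) (hww : s(w, w') ∈ F₁)
    (hwb : w' ≠ b) (hwd : s(w', d) ∈ F₂) (hbd : s(b, d) ∈ E) (hww2 : s(w, w') ∉ F₂)
    (ih : ∀ (F₁' F₂' : Finset (Sym2 V)) (A' : Finset V) (b' d' : V), Prob5 E F₁' F₂' A' b' d' →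
      s(b', d') ∈ E → mu F₁' F₂' < mu F₁ F₂ → Done5 E A' b' d') : Done5 E A b d := by
  by_cases hwA : w ∈ A
  swap
  · exact rep_done5 h hbw hww hwb hwd hbd hwA
  obtain ⟨F₃, f1, f2, f3, f4, f5, f6, f7, f8⟩ := rep5 h hbw hww hwb hwd hbd
  have hp : Prob5 E F₃ F₂ (insert d (A.erase w)) b w := by
    refine ⟨f1, h.e2, f2, h.s2, f3, h.g2, ?_, ?_, f6, h.b2, f4, h.a2 w hwA⟩
    · intro v hv
      rcases mem_insert.1 hv with hv | hv
      · rw [hv]
        exact f5
      · exact f7 v (mem_erase.1 hv).1 (h.a1 v (mem_of_mem_erase hv))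
    · intro v hv
      rcases mem_insert.1 hv with hv | hv
      · rw [hv]
        exact h.d2
      · exact h.a2 v (mem_of_mem_erase hv)
  obtain ⟨F', g1, g2, g3, g4, g5, g6⟩ := ih F₃ F₂ _ b w hp (h.e1 hbw) (f8 hww2)
  refine ⟨F', g1, g2, g3, fun v hv => ?_, g5, g4 d (mem_insert_self _ _)⟩
  by_cases hvw : v = w
  · rw [hvw]
    exact g6
  · exact g4 v (mem_insert_of_mem (mem_erase.2 ⟨hvw, hv⟩))

/-- What remains at the end of a walk. -/
theorem endcase5 {E F₁ F₂ : Finset (Sym2 V)} {A : Finset V} {b d δ : V}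
    (h : Prob5 E F₁ F₂ A b d)
    (p : (SimpleGraph.fromEdgeSet (E : Set (Sym2 V))).Walk b d) (hp : p.IsPath)
    (hin1 : ∀ r ∈ p.support, r ≠ b → r ≠ d → dg F₁ r = 0)
    (hin2 : ∀ r ∈ p.support, r ≠ b → r ≠ d → dg F₂ r = 0) (he : End5 F₁ F₂ A b d δ) :
    Done5 E A b d ∨ (p.length < 2 ∧ ∃ F' ⊆ F₁ ∪ F₂, SF F' ∧ (∀ v ∈ A, dg F' v = 2) ∧
      dg F' b = 1 ∧ dg F' d = 1 ∧ (∀ v, v ≠ b → v ≠ d → dg F' v = 0 ∨ dg F' v = 2) ∧
        (Hd F₁ F₂ d δ → s(d, δ) ∈ F') ∧ ∃ w w', s(b, w) ∈ F' ∧ w' ≠ b ∧ s(w, w') ∈ F' ∧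
          s(w', d) ∈ F') := by
  obtain ⟨F', hF', hS, hA, (⟨h1, h2, h3⟩ | ⟨h1, h2, h3, h4⟩)⟩ := he
  · exact Or.inl ⟨F', hF'.trans (union_subset h.e1 h.e2), hS, h1, hA, h2, h3⟩
  · have hbF : ∀ v, s(b, v) ∈ F' → s(b, v) ∈ F₁ := by
      intro v hv
      rcases mem_union.1 (hF' hv) with h5 | h5
      · exact h5
      · exact absurd h5 (dg_zero h.b2 v)
    have hdF : ∀ v, s(v, d) ∈ F' → s(v, d) ∈ F₂ := by
      intro v hv
      rcases mem_union.1 (hF' hv) with h5 | h5
      · exact absurd (sw h5) (dg_zero h.d1 v)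
      · exact h5
    by_cases hL2 : L2 F' b d
    · by_cases hl : 2 ≤ p.length ∨ L3 F' b d
      · left
        obtain ⟨G, f1, f2, f3, f4, f5, f6⟩ := addPath5 p hp F'
          (hF'.trans (union_subset h.e1 h.e2)) hS h.bd
          (fun h' => dg_zero h.d1 b (sw (hbF d h'))) h1 h2 h3
          (fun r hr h5 h6 => dg_union_zero hF' (hin1 r hr h5 h6) (hin2 r hr h5 h6))
          (Or.inr ⟨hL2, hl⟩)
        exact ⟨G, f1, f2, f3, fun v hv => f6 v (hA v hv), f4, f5⟩
      · right
        push Not at hl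
        obtain ⟨hl1, hl2⟩ := hl
        unfold L3 at hl2
        push Not at hl2
        obtain ⟨w, z, hw, hz, hwz, hzd⟩ := hl2
        exact ⟨hl1, F', hF', hS, hA, h1, h2, h3, h4, w, z, hw, hz, hwz, hzd⟩
    · left
      unfold L2 at hL2
      push Not at hL2
      obtain ⟨w, hw, hwd⟩ := hL2
      exact insertion h (hbF w hw) (hdF w hwd) p hp hin1

/-- The case of an edge `b d`. -/
theorem edge5 {E : Finset (Sym2 V)} : ∀ (k : ℕ) (F₁ F₂ : Finset (Sym2 V)) (A : Finset V) (b d : V),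
    mu F₁ F₂ < k → Prob5 E F₁ F₂ A b d → s(b, d) ∈ E → Done5 E A b d := by
  intro k
  induction k with
  | zero => intro _ _ _ _ _ h; omega
  | succ k ih0 =>
    intro F₁ F₂ A b d hk h hbd
    have ih : ∀ (F₁' F₂' : Finset (Sym2 V)) (A' : Finset V) (b' d' : V),
        Prob5 E F₁' F₂' A' b' d' → s(b', d') ∈ E → mu F₁' F₂' < mu F₁ F₂ → Done5 E A' b' d' :=
      fun F₁' F₂' A' b' d' h1 h2 h3 => ih0 F₁' F₂' A' b' d' (by omega) h1 h2
    have ihs : ∀ (F₁' F₂' : Finset (Sym2 V)) (A' : Finset V) (b' d' : V),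
        Prob5 E F₁' F₂' A' b' d' → s(b', d') ∈ E → mu F₁' F₂' < mu F₂ F₁ → Done5 E A' b' d' :=
      fun F₁' F₂' A' b' d' h1 h2 h3 => ih F₁' F₂' A' b' d' h1 h2 (by rwa [mu_symm F₁ F₂])
    have hbd' := h.bd
    have hadj : (SimpleGraph.fromEdgeSet (E : Set (Sym2 V))).Adj b d := by
      rw [SimpleGraph.fromEdgeSet_adj]
      exact ⟨by exact_mod_cast hbd, hbd'⟩
    obtain ⟨p, hp, hps⟩ : ∃ p : (SimpleGraph.fromEdgeSet (E : Set (Sym2 V))).Walk b d,
        p.IsPath ∧ ∀ r ∈ p.support, r = b ∨ r = d := by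
      refine ⟨SimpleGraph.Walk.cons hadj SimpleGraph.Walk.nil, ?_, ?_⟩
      · rw [SimpleGraph.Walk.cons_isPath_iff]
        exact ⟨SimpleGraph.Walk.IsPath.nil, by simpa using hbd'⟩
      · intro r hr
        simpa using hr
    have hin : ∀ (F : Finset (Sym2 V)), ∀ r ∈ p.support, r ≠ b → r ≠ d → dg F r = 0 :=
      fun F r hr h1 h2 => absurd (hps r hr) (by push Not; exact ⟨h1, h2⟩)
    have hbF : ∀ {F' : Finset (Sym2 V)}, F' ⊆ F₁ ∪ F₂ → ∀ v, s(b, v) ∈ F' → s(b, v) ∈ F₁ := by
      intro F' hF' v hv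
      rcases mem_union.1 (hF' hv) with h5 | h5
      · exact h5
      · exact absurd h5 (dg_zero h.b2 v)
    have hdF : ∀ {F' : Finset (Sym2 V)}, F' ⊆ F₁ ∪ F₂ → ∀ v, s(v, d) ∈ F' → s(v, d) ∈ F₂ := by
      intro F' hF' v hv
      rcases mem_union.1 (hF' hv) with h5 | h5
      · exact absurd (sw h5) (dg_zero h.d1 v)
      · exact h5
    -- the cases where the middle edge is in only one of `F₁`, `F₂`
    have one : ∀ w w', s(b, w) ∈ F₁ → w' ≠ b → s(w, w') ∈ F₁ ∪ F₂ → s(w', d) ∈ F₂ →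
        Done5 E A b d ∨ (s(w, w') ∈ F₁ ∧ s(w, w') ∈ F₂) := by
      intro w w' hw hwb hww hwd
      have hwd0 : w ≠ d := by
        rintro rfl
        exact dg_zero h.d1 b (sw hw)
      by_cases c1 : s(w, w') ∈ F₁
      · by_cases c2 : s(w, w') ∈ F₂
        · exact Or.inr ⟨c1, c2⟩
        · exact Or.inl (caseA5 h hw c1 hwb hwd hbd c2 ih)
      · have c2 : s(w, w') ∈ F₂ := (mem_union.1 hww).resolve_left c1
        exact Or.inl (caseA5 h.symm (sw hwd) (sw c2) hwd0 (sw hw) (sw hbd) (swn c1) ihs).symm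
    obtain ⟨δ₀, hδ₀⟩ := ex_one (F := F₂) (v := d) (by have := h.d2; omega)
    rcases endcase5 h p hp (hin F₁) (hin F₂)
      (run5 h.s1 h.s2 h.g1 h.g2 h.a1 h.a2 h.b1 h.d1 h.b2 hδ₀) with hdone | hend
    · exact hdone
    obtain ⟨-, F', hF', -, -, -, -, -, -, w, w', hw, hwb, hww, hwd⟩ := hend
    have hw1 := hbF hF' w hw
    have hwd2 := hdF hF' w' hwd
    rcases one w w' hw1 hwb (hF' hww) hwd2 with hdone | ⟨hwwF₁, hwwF₂⟩
    · exact hdone
    -- `w w'` in both
    have hwd0 : w ≠ d := by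
      rintro rfl
      exact dg_zero h.d1 b (sw hw1)
    have hbw' := h.s1.ne hw1
    have hww' := h.s1.ne hwwF₁
    have hw'd := h.s2.ne hwd2
    by_cases hwA : w ∈ A
    swap
    · exact rep_done5 h hw1 hwwF₁ hwb hwd2 hbd hwA
    by_cases hw'A : w' ∈ A
    swap
    · exact (rep_done5 h.symm (sw hwd2) (sw hwwF₂) hwd0 (sw hw1) (sw hbd) hw'A).symm
    obtain ⟨δ, hδw, hδ⟩ := ex_other h.d2 (sw hwd2)
    have hδb : δ ≠ b := by
      rintro rfl
      exact dg_zero h.b2 d (sw hδ)
    have hδd := h.s2.ne hδ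
    have hwδ1 : s(w, δ) ∉ F₁ := by
      intro h'
      rcases dg_two (h.a1 w hwA) (sw hw1) hwwF₁ (Ne.symm hwb) h' with h5 | h5
      · exact hδb h5
      · exact hδw h5
    have hwδ : w ≠ δ := by
      rintro rfl
      exact h.s2.1 d w' w (sw hwd2) (sw hwwF₂) (sw hδ)
    have hHd : Hd F₁ F₂ d δ := by
      intro a u hda haδ hau hud
      have ha : a = w' := (dg_two h.d2 hδ (sw hwd2) hδw hda).resolve_left haδ
      rw [ha] at hau
      have hu : u = w := (dg_two (h.a2 w' hw'A) hwd2 (sw hwwF₂) (Ne.symm hwd0) hau).resolve_left hud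
      rw [hu]
      exact hwδ1
    rcases endcase5 h p hp (hin F₁) (hin F₂)
      (run5 h.s1 h.s2 h.g1 h.g2 h.a1 h.a2 h.b1 h.d1 h.b2 hδ) with hdone | hend
    · exact hdone
    obtain ⟨-, G, hG, sG, aG, bG, dG, gG, dδ, v, v', hv, hvb, hvv, hvd⟩ := hend
    have hdδG := dδ hHd
    have hvδ : v' = δ := dg_one dG hdδG (sw hvd)
    rw [hvδ] at hvb hvv hvd
    have hv1 := hbF hG v hv
    rcases one v δ hv1 hvb (hG hvv) (hdF hG δ hvd) with hdone | ⟨hvvF₁, hvvF₂⟩
    · exact hdone
    have hbv := h.s1.ne hv1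
    have hvd0 : v ≠ d := by
      rintro rfl
      exact dg_zero h.d1 b (sw hv1)
    have hvw : v ≠ w := by
      rintro rfl
      exact hwδ1 hvvF₁
    have hvw' : v ≠ w' := by
      rintro rfl
      exact h.s1.1 b w v hw1 hwwF₁ (sw hv1)
    have hvδ' := h.s1.ne hvvF₁
    have hbG : ∀ z, s(b, z) ∈ G → z = v := fun z hz => dg_one bG hv hz
    have hdG : ∀ z, s(d, z) ∈ G → z = δ := fun z hz => dg_one dG hdδG hz
    have dv : dg G v = 2 := by
      have h1 := gG v (Ne.symm hbv) hvd0
      have h2 := dg_pos hvv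
      omega
    have dδ2 : dg G δ = 2 := by
      have h1 := gG δ hδb (Ne.symm hδd)
      have h2 := dg_pos' hvv
      omega
    have hvG : ∀ z, s(v, z) ∈ G → z = b ∨ z = δ := fun z hz =>
      dg_two dv (sw hv) hvv (Ne.symm hδb) hz
    have hδG : ∀ z, s(δ, z) ∈ G → z = v ∨ z = d := fun z hz =>
      dg_two dδ2 (sw hvv) hvd hvd0 hz
    -- `w w'` is in `G`
    have hwwG : s(w, w') ∈ G := by
      by_contra hcon
      obtain ⟨u1, hu1⟩ := ex_one (F := G) (v := w) (by have := aG w hwA; omega)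
      obtain ⟨u2, hu21, hu2⟩ := ex_other (aG w hwA) hu1
      have hno : ∀ u, s(w, u) ∈ G → u ≠ w' ∧ s(w, u) ∈ F₂ := by
        intro u hu
        have h1 : u ≠ w' := by
          rintro rfl
          exact hcon hu
        refine ⟨h1, ?_⟩
        rcases mem_union.1 (hG hu) with h5 | h5
        · rcases dg_two (h.a1 w hwA) (sw hw1) hwwF₁ (Ne.symm hwb) h5 with h6 | h6
          · rw [h6] at hu
            exact absurd (hbG w (sw hu)).symm hvw
          · exact absurd h6 h1
        · exact h5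
      obtain ⟨c1, c2⟩ := hno u1 hu1
      obtain ⟨c3, c4⟩ := hno u2 hu2
      rcases dg_two (h.a2 w hwA) hwwF₂ c2 (Ne.symm c1) c4 with h6 | h6
      · exact c3 h6
      · exact hu21 h6
    -- merge
    have n2 : s(b, w) ∉ G.erase s(w, w') := fun h' => hvw (hbG w (mem_of_mem_erase h')).symm
    have n3 : s(d, w') ∉ insert s(b, w) (G.erase s(w, w')) := by
      intro h'
      rcases mem_insert.1 h' with h' | h'
      · exact sne (Or.inl (Ne.symm hbd')) (Or.inr hwb) h'
      · exact hδw (hdG w' (mem_of_mem_erase h')).symm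
    have key1 := dg_erase hwwG
    have key2 := dg_insert n2
    have key3 := dg_insert n3
    obtain ⟨K, hK⟩ : ∃ K, K = G.erase s(w, w') := ⟨_, rfl⟩
    rw [← hK] at key1 key2 key3 n2 n3
    have hKG : K ⊆ G := by
      rw [hK]
      exact erase_subset _ _
    have hb2 : s(b, w) ∈ E := h.e1 hw1
    have hd2 : s(d, w') ∈ E := h.e2 (sw hwd2)
    have sK2 : SF (insert s(b, w) K) := by
      refine (sG.mono hKG).ins1 (w := v) hbw' (fun z hz => hbG z (hKG hz)) ?_ ?_
      · intro h'
        rcases hvG w (hKG h') with h5 | h5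
        · exact hbw' h5.symm
        · exact hwδ h5
      · intro z hzb hz h'
        have hzδ : z = δ := (hvG z (hKG hz)).resolve_left hzb
        rw [hzδ] at h'
        rcases hδG w (hKG h') with h5 | h5
        · exact hvw h5.symm
        · exact hwd0 h5
    have sK3 : SF (insert s(d, w') (insert s(b, w) K)) := by
      refine sK2.ins1 (w := δ) (Ne.symm hw'd) ?_ ?_ ?_
      · intro z hz
        rcases mem_insert.1 hz with h' | h'
        · exact absurd h' (sne (Or.inl (Ne.symm hbd')) (Or.inl (Ne.symm hwd0)))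
        · exact hdG z (hKG h')
      · intro h'
        rcases mem_insert.1 h' with h' | h'
        · exact sne (Or.inl hδb) (Or.inl (Ne.symm hwδ)) h'
        · rcases hδG w' (hKG h') with h5 | h5
          · exact hvw' h5.symm
          · exact hw'd h5
      · intro z hzd hz h'
        have hzv : z = v := by
          rcases mem_insert.1 hz with h5 | h5
          · exact absurd h5 (sne (Or.inl hδb) (Or.inl (Ne.symm hwδ)))
          · exact (hδG z (hKG h5)).resolve_right hzd
        rw [hzv] at h'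
        rcases mem_insert.1 h' with h5 | h5
        · exact sne (Or.inl (Ne.symm hbv)) (Or.inl hvw) h5
        · rcases hvG w' (hKG h5) with h6 | h6
          · exact hwb h6
          · exact hδw h6.symm
    obtain ⟨M, hM⟩ : ∃ M, M = insert s(d, w') (insert s(b, w) K) := ⟨_, rfl⟩
    rw [← hM] at key3 sK3
    have degb : dg M b = 2 := by
      have e1 := key1 b
      have e2 := key2 b
      have e3 := key3 b
      rw [if_neg (by push Not; exact ⟨hbw', Ne.symm hwb⟩)] at e1
      rw [if_pos (Or.inl rfl)] at e2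
      rw [if_neg (by push Not; exact ⟨hbd', Ne.symm hwb⟩)] at e3
      omega
    have degd : dg M d = 2 := by
      have e1 := key1 d
      have e2 := key2 d
      have e3 := key3 d
      rw [if_neg (by push Not; exact ⟨Ne.symm hwd0, Ne.symm hw'd⟩)] at e1
      rw [if_neg (by push Not; exact ⟨Ne.symm hbd', Ne.symm hwd0⟩)] at e2
      rw [if_pos (Or.inl rfl)] at e3
      omega
    have deg : ∀ z, z ≠ b → z ≠ d → dg M z = dg G z := by
      intro z h1 h2
      have e1 := key1 z
      have e2 := key2 z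
      have e3 := key3 z
      by_cases h3 : z = w
      · subst h3
        rw [if_pos (Or.inl rfl)] at e1
        rw [if_pos (Or.inr rfl)] at e2
        rw [if_neg (by push Not; exact ⟨h2, hww'⟩)] at e3
        omega
      · by_cases h4 : z = w'
        · subst h4
          rw [if_pos (Or.inr rfl)] at e1 e3
          rw [if_neg (by push Not; exact ⟨h1, h3⟩)] at e2
          omega
        · rw [if_neg (by push Not; exact ⟨h3, h4⟩)] at e1
          rw [if_neg (by push Not; exact ⟨h1, h3⟩)] at e2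
          rw [if_neg (by push Not; exact ⟨h2, h4⟩)] at e3
          omega
    refine ⟨M, ?_, sK3, ?_, ?_, degb, degd⟩
    · rw [hM]
      exact insert_subset hd2
        (insert_subset hb2 (hKG.trans (hG.trans (union_subset h.e1 h.e2))))
    · intro z
      by_cases h1 : z = b
      · rw [h1]
        exact Or.inr degb
      · by_cases h2 : z = d
        · rw [h2]
          exact Or.inr degd
        · rw [deg z h1 h2]
          exact gG z h1 h2
    · intro z hz
      rw [deg z (fun e => h.bA (e ▸ hz)) (fun e => h.dA (e ▸ hz))]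
      exact aG z hz

/-- THE EXCHANGE LEMMA for covers by cycles of length at least `5`. -/
theorem exch5 {E : Finset (Sym2 V)} {A : Finset V} {b d : V}
    (hb : Cov5 E (insert b A)) (hd : Cov5 E (insert d A))
    (p : (SimpleGraph.fromEdgeSet (E : Set (Sym2 V))).Walk b d) (hp : p.IsPath)
    (hin : ∀ r ∈ p.support, r ≠ b → r ≠ d → ¬ Cov5 E (insert r A)) :
    Cov5 E (insert b (insert d A)) := by
  have hb0 := hb
  have hd0 := hd
  obtain ⟨F₁, e1, s1, g1, a1⟩ := hb
  obtain ⟨F₂, e2, s2, g2, a2⟩ := hd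
  by_cases hd1 : dg F₁ d = 2
  · refine ⟨F₁, e1, s1, g1, fun v hv => ?_⟩
    rcases mem_insert.1 hv with h | h
    · exact a1 v (by rw [h]; exact mem_insert_self _ _)
    · rcases mem_insert.1 h with h | h
      · rw [h]
        exact hd1
      · exact a1 v (mem_insert_of_mem h)
  by_cases hb2 : dg F₂ b = 2
  · refine ⟨F₂, e2, s2, g2, fun v hv => ?_⟩
    rcases mem_insert.1 hv with h | h
    · rw [h]
      exact hb2
    · exact a2 v h
  have h : Prob5 E F₁ F₂ A b d :=
    ⟨e1, e2, s1, s2, g1, g2, fun v hv => a1 v (mem_insert_of_mem hv),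
      fun v hv => a2 v (mem_insert_of_mem hv), a1 b (mem_insert_self _ _),
      (g2 b).resolve_right hb2, (g1 d).resolve_right hd1, a2 d (mem_insert_self _ _)⟩
  have hdone : Done5 E A b d := by
    have hin1 : ∀ r ∈ p.support, r ≠ b → r ≠ d → dg F₁ r = 0 := by
      intro r hr h1 h2
      refine (g1 r).resolve_right fun h3 => hin r hr h1 h2 ⟨F₁, e1, s1, g1, fun v hv => ?_⟩
      rcases mem_insert.1 hv with h4 | h4
      · rw [h4]
        exact h3
      · exact h.a1 v h4
    have hin2 : ∀ r ∈ p.support, r ≠ b → r ≠ d → dg F₂ r = 0 := by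
      intro r hr h1 h2
      refine (g2 r).resolve_right fun h3 => hin r hr h1 h2 ⟨F₂, e2, s2, g2, fun v hv => ?_⟩
      rcases mem_insert.1 hv with h4 | h4
      · rw [h4]
        exact h3
      · exact h.a2 v h4
    obtain ⟨δ₀, hδ₀⟩ := ex_one (F := F₂) (v := d) (by have := h.d2; omega)
    rcases endcase5 h p hp hin1 hin2
      (run5 h.s1 h.s2 h.g1 h.g2 h.a1 h.a2 h.b1 h.d1 h.b2 hδ₀) with hdone | ⟨hl, _⟩
    · exact hdone
    · -- the path is an edge
      have hbd : s(b, d) ∈ E := by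
        cases p with
        | nil => exact absurd rfl h.bd
        | @cons _ y _ hadj q =>
          rw [SimpleGraph.Walk.length_cons] at hl
          have hq : q.length = 0 := by omega
          have hyd : y = d := SimpleGraph.Walk.eq_of_length_eq_zero hq
          rw [SimpleGraph.fromEdgeSet_adj] at hadj
          rw [← hyd]
          exact_mod_cast hadj.1
      exact edge5 (mu F₁ F₂ + 1) F₁ F₂ A b d (by omega) h hbd
  obtain ⟨F', f1, f2, f3, f4, f5, f6⟩ := hdone
  refine ⟨F', f1, f2, f3, fun v hv => ?_⟩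
  rcases mem_insert.1 hv with h1 | h1
  · rw [h1]
    exact f5
  · rcases mem_insert.1 h1 with h2 | h2
    · rw [h2]
      exact f6
    · exact f4 v h2

end H96TF
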